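import Pool.Agent.Helper94.DG.Model

/-!
# Digests: the instances and the probability spaces of the proof
-/

set_option autoImplicit false

open Finset

namespace Pool.Agent.Helper94.DG

open Pool.Agent.Helper22.ETModel Pool.Agent.Helper8.VT Pool.Agent.Helper53.TC5

/-! ### The probability space of one part -/

/-- The weights of the three sides of one part. -/
abbrev Arr (m L : ℕ) : Type :=
  (Fin m → Fin m → Fin L) × (Fin m → Fin m → Fin L) × (Fin m → Fin m → Fin (2 * L))

/-- The planted triangle of one part, and the three values that are drawn in the classes. -/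
abbrev Data (m L : ℕ) : Type :=
  Arr m L × (Fin m × Fin m × Fin m) × (Fin L × Fin L × Fin (2 * L))

/-- `x + y`. -/
def add {L : ℕ} (x y : Fin L) : Fin (2 * L) := ⟨x + y, by omega⟩

/-- The array `X` with the entry `z` in the place `i j`. -/
def upd {m : ℕ} {α : Type} (X : Fin m → Fin m → α) (i j : Fin m) (z : α) : Fin m → Fin m → α :=
  fun u v => if u = i ∧ v = j then z else X u v

open Classical in
/-- The probability to draw `x'` if one draws in the class of `x`. -/
noncomputable def ker {α : Type} [Fintype α] (δ : α → ℕ) (x x' : α) : ℝ :=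
  if δ x = δ x' then ((univ.filter fun z => δ z = δ x).card : ℝ)⁻¹ else 0

/-- The mass of the point `D`. -/
noncomputable def mass {m L : ℕ} (a b : Fin m → Fin m → Fin L → ℕ)
    (c : Fin m → Fin m → Fin (2 * L) → ℕ) (D : Data m L) : ℝ :=
  ((Fintype.card (Arr m L) : ℝ) * (m : ℝ) ^ 3)⁻¹ *
    (ker (a D.2.1.1 D.2.1.2.1) (D.1.1 D.2.1.1 D.2.1.2.1) D.2.2.1 *
      ker (b D.2.1.2.1 D.2.1.2.2) (D.1.2.1 D.2.1.2.1 D.2.1.2.2) D.2.2.2.1 *
      ker (c D.2.1.1 D.2.1.2.2)
        (add (D.1.1 D.2.1.1 D.2.1.2.1) (D.1.2.1 D.2.1.2.1 D.2.1.2.2)) D.2.2.2.2)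

/-- The corner `d` of the point `D`: the weight of the side `s` of the planted triangle is the one
with exact sum if `d s = false`, and the one that has been drawn in its class if `d s = true`. -/
def corner {m L : ℕ} (d : Fin 3 → Bool) (D : Data m L) : Arr m L :=
  (if d 0 then upd D.1.1 D.2.1.1 D.2.1.2.1 D.2.2.1 else D.1.1,
    if d 1 then upd D.1.2.1 D.2.1.2.1 D.2.1.2.2 D.2.2.2.1 else D.1.2.1,
    upd D.1.2.2 D.2.1.1 D.2.1.2.2 (if d 2 then D.2.2.2.2 else
      add (D.1.1 D.2.1.1 D.2.1.2.1) (D.1.2.1 D.2.1.2.1 D.2.1.2.2)))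

/-- The kernel of a side: it draws in the class if `d` is true, and changes nothing otherwise. -/
noncomputable def kerd {α : Type} [Fintype α] [DecidableEq α] (d : Bool) (δ : α → ℕ) (x x' : α) :
    ℝ := if d then ker δ x x' else if x = x' then 1 else 0

/-- The density of the law of the three weights of the planted triangle at the corner `d`. -/
noncomputable def dens {L : ℕ} (d : Fin 3 → Bool) (a b : Fin L → ℕ) (c : Fin (2 * L) → ℕ)
    (x y : Fin L) (w : Fin (2 * L)) : ℝ :=
  2 * L * ∑ x' : Fin L, ∑ y' : Fin L,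
    kerd (d 0) a x' x * kerd (d 1) b y' y * kerd (d 2) c (add x' y') w

/-- The density of the law of the corner `d`. -/
noncomputable def densF {m L : ℕ} (d : Fin 3 → Bool) (a b : Fin m → Fin m → Fin L → ℕ)
    (c : Fin m → Fin m → Fin (2 * L) → ℕ) (S : Arr m L) : ℝ :=
  ((m : ℝ) ^ 3)⁻¹ * ∑ i : Fin m, ∑ j : Fin m, ∑ k : Fin m,
    dens d (a i j) (b j k) (c i k) (S.1 i j) (S.2.1 j k) (S.2.2 i k)

/-! ### The embedding -/

/-- The vertex `t` of the part `q` of the class `c`. -/
def vtx {m n : ℕ} (h : 12 * m ≤ n) (c : Fin 3) (q : Fin 4) (t : Fin m) : Fin n :=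
  ⟨12 * t + 3 * q + c, by omega⟩

/-- The weight of the cell `u v` with `u % 3 ≤ v % 3`, for the arrays `S q` in the parts. All the
cells which are not inside a part have the weight `10 * L`. -/
def wgt {m L : ℕ} (S : Fin 4 → Arr m L) (u v : ℕ) : ℤ :=
  if h : u / 12 < m ∧ v / 12 < m ∧ (u / 3) % 4 = (v / 3) % 4 then
    if u % 3 = 0 ∧ v % 3 = 1 then
      (((S ⟨(u / 3) % 4, Nat.mod_lt _ (by norm_num)⟩).1 ⟨u / 12, h.1⟩ ⟨v / 12, h.2.1⟩ : ℕ) : ℤ)
    else if u % 3 = 1 ∧ v % 3 = 2 then
      (((S ⟨(u / 3) % 4, Nat.mod_lt _ (by norm_num)⟩).2.1 ⟨u / 12, h.1⟩ ⟨v / 12, h.2.1⟩ : ℕ) : ℤ)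
    else if u % 3 = 0 ∧ v % 3 = 2 then
      - (((S ⟨(u / 3) % 4, Nat.mod_lt _ (by norm_num)⟩).2.2 ⟨u / 12, h.1⟩ ⟨v / 12, h.2.1⟩ : ℕ) : ℤ)
    else 10 * L
  else 10 * L

/-- The flags of the complete tripartite instances. -/
def flg (n : ℕ) : Flags n := fun u v => decide ((u : ℕ) % 3 ≠ (v : ℕ) % 3)

/-- The instance with the arrays `S q` in the four parts. -/
def inst {m L : ℕ} (n : ℕ) (S : Fin 4 → Arr m L) : Inst n where
  flag := flg n
  wt u v := if (u : ℕ) % 3 ≤ (v : ℕ) % 3 then wgt S u v else wgt S v u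

/-- The even corners of the cube: `000`, `011`, `101`, `110`. -/
def even (q : Fin 4) : Fin 3 → Bool := match q with
  | 0 => ![false, false, false]
  | 1 => ![false, true, true]
  | 2 => ![true, false, true]
  | 3 => ![true, true, false]

/-- The corner `v` of the point `D` of the product space. -/
def cube {m L : ℕ} (v : Fin 3 → Bool) (D : Fin 4 → Data m L) : Fin 4 → Arr m L :=
  fun q => corner (fun s => xor (v s) (even q s)) (D q)

/-- The sign of the corner `v` of the cube. -/
def sgn (v : Fin 3 → Bool) : ℝ := ∏ s : Fin 3, if v s then -1 else 1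

end Pool.Agent.Helper94.DG
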