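import Pool.Agent.Helper94.DG.Defs

/-!
# Digests and adaptive voters: notions of the proof
-/

set_option autoImplicit false

open Finset

namespace Pool.Agent.Helper94.DG

open Pool.Agent.Helper22.ETModel Pool.Agent.Helper8.VT Pool.Agent.Helper53.TC5

/-! ### Notions of the proof -/

/-- The cells probed on the path of `w`. -/
def path {n : ℕ} : {d : ℕ} → Tree n d → Wts n → Finset (Fin n × Fin n)
  | _, .leaf _, _ => ∅
  | _, .node i j next, w => insert (i, j) (path (next (w i j)) w)

/-- A triangle of one part. -/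
abbrev Tri (m : ℕ) : Type := Fin m × Fin m × Fin m

/-- The density of the joint law of the planted triangle and the arrays at the corner `d`. -/
noncomputable def densT {m L : ℕ} (d : Fin 3 → Bool) (a b : Fin m → Fin m → Fin L → ℕ)
    (c : Fin m → Fin m → Fin (2 * L) → ℕ) (T : Tri m) (S : Arr m L) : ℝ :=
  dens d (a T.1 T.2.1) (b T.2.1 T.2.2) (c T.1 T.2.2) (S.1 T.1 T.2.1) (S.2.1 T.2.1 T.2.2)
    (S.2.2 T.1 T.2.2)

/-- The density is not big at the triangle, nor its sums over the triangles with one common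
edge. -/
def Good {m L : ℕ} (d : Fin 3 → Bool) (a b : Fin m → Fin m → Fin L → ℕ)
    (c : Fin m → Fin m → Fin (2 * L) → ℕ) (h K : ℝ) (T : Tri m) (S : Arr m L) : Prop :=
  densT d a b c T S ≤ h * K ∧
    ∑ k : Fin m, densT d a b c (T.1, T.2.1, k) S ≤ h * (m + K) ∧
    ∑ i : Fin m, densT d a b c (i, T.2.1, T.2.2) S ≤ h * (m + K) ∧
    ∑ j : Fin m, densT d a b c (T.1, j, T.2.2) S ≤ h * (m + K)

/-- The sets `A q`, `B q`, `C q` of cells contain edges of the triangles, in all three sides. -/
def Meets {m : ℕ} (A B C : Fin 4 → Fin m → Fin m → Prop) (T : Fin 4 → Tri m) : Prop :=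
  (∃ q, A q (T q).1 (T q).2.1) ∧ (∃ q, B q (T q).2.1 (T q).2.2) ∧ (∃ q, C q (T q).1 (T q).2.2)

end Pool.Agent.Helper94.DG
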