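import Pool.Agent.Helper94.DG.Model
import Pool.Agent.Helper95.RV.Upper

/-!
# Functions of three weights (after Helper56/DG/Three.lean)
-/

set_option autoImplicit false

open Finset

namespace Pool.Agent.Helper94.DG.Three

open Pool.Agent.Helper22.ETModel Pool.Agent.Helper8.VT Pool.Agent.Helper8.UV
open Pool.Agent.Helper53.TC5 Pool.Agent.Helper94.DG

variable {n : ℕ}

/-- the vote `1` for the triangle `i j k` of sum `0` -/
noncomputable def one (i j k : Fin n) (I : Inst n) : ℝ :=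
  if I.wt i j + I.wt j k + I.wt i k = 0 then 1 else 0

theorem one_lit {i j k : Fin n} {f : Flags n} {w w' : Wts n} (h1 : w i j = w' i j)
    (h2 : w j k = w' j k) (h3 : w i k = w' i k) : one i j k ⟨f, w⟩ = one i j k ⟨f, w'⟩ := by
  unfold one
  simp only [h1, h2, h3]

private def c0 (a : Fin ((n + 2) / 3)) : Fin n := ⟨3 * a, by omega⟩
private def c1 (a : Fin ((n + 1) / 3)) : Fin n := ⟨3 * a + 1, by omega⟩
private def c2 (a : Fin (n / 3)) : Fin n := ⟨3 * a + 2, by omega⟩

theorem clean_three (n : ℕ) :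
    ∃ H : Fin ((n + 2) / 3 * ((n + 1) / 3) * (n / 3)) → Inst n → ℝ,
      (∀ r, ∃ u v z : Fin n, (u : ℕ) % 3 = 0 ∧ (v : ℕ) % 3 = 1 ∧ (z : ℕ) % 3 = 2 ∧
        ∀ (f : Flags n) (w w' : Wts n), w u v = w' u v → w v z = w' v z → w u z = w' u z →
          H r ⟨f, w⟩ = H r ⟨f, w'⟩) ∧
      ∀ I : Inst n, I.Valid → Tripartite I → (0 < ∑ r, H r I ↔ I.Yes) := by
  refine ⟨fun r => one (c0 (finProdFinEquiv.symm (finProdFinEquiv.symm r).1).1)
    (c1 (finProdFinEquiv.symm (finProdFinEquiv.symm r).1).2) (c2 (finProdFinEquiv.symm r).2),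
    fun r => ⟨_, _, _, ?_, ?_, ?_, fun f w w' h1 h2 h3 => one_lit h1 h2 h3⟩, fun I hI hT => ?_⟩
  · simp only [c0]
    omega
  · simp only [c1]
    omega
  · simp only [c2]
    omega
  rw [Pool.Agent.Helper95.RV.yes_iff I hI hT]
  have h0 : ∀ i j k : Fin n, 0 ≤ one i j k I := fun i j k => by
    unfold one
    split_ifs
    · exact zero_le_one
    · exact le_refl _
  constructor
  · intro h
    obtain ⟨r, _, hr⟩ := Finset.exists_ne_zero_of_sum_ne_zero h.ne'
    unfold one at hr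
    rw [ite_ne_right_iff] at hr
    refine ⟨_, _, _, ?_, ?_, ?_, hr.1⟩
    · simp only [c0]
      omega
    · simp only [c1]
      omega
    · simp only [c2]
      omega
  · rintro ⟨i, j, k, hi, hj, hk, h⟩
    have hin := i.isLt
    have hjn := j.isLt
    have hkn := k.isLt
    set r := finProdFinEquiv (finProdFinEquiv ((⟨(i : ℕ) / 3, by omega⟩ : Fin ((n + 2) / 3)),
      (⟨(j : ℕ) / 3, by omega⟩ : Fin ((n + 1) / 3))), (⟨(k : ℕ) / 3, by omega⟩ : Fin (n / 3)))
      with hr
    refine Finset.sum_pos' (fun _ _ => h0 _ _ _) ⟨r, Finset.mem_univ _, ?_⟩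
    beta_reduce
    rw [hr, Equiv.symm_apply_apply, Equiv.symm_apply_apply]
    have e0 : c0 (⟨(i : ℕ) / 3, by omega⟩ : Fin ((n + 2) / 3)) = i := by
      apply Fin.ext
      simp only [c0]
      omega
    have e1 : c1 (⟨(j : ℕ) / 3, by omega⟩ : Fin ((n + 1) / 3)) = j := by
      apply Fin.ext
      simp only [c1]
      omega
    have e2 : c2 (⟨(k : ℕ) / 3, by omega⟩ : Fin (n / 3)) = k := by
      apply Fin.ext
      simp only [c2]
      omega
    rw [e0, e1, e2]
    unfold one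
    rw [if_pos h]
    exact zero_lt_one

end Pool.Agent.Helper94.DG.Three
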