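import Pool.Agent.Helper94.DG.LowerA
import Pool.Agent.Helper28.DG.Adaptive1
import Pool.Agent.Helper14.DG.UpperOne
import Pool.Agent.Helper94.DG.Three

/-!
# Digests: the theorem for `N` voters with `t` cells
-/

set_option autoImplicit false

open Finset

namespace Pool.Agent.Helper94.DG

open Pool.Agent.Helper22.ETModel Pool.Agent.Helper8.VT Pool.Agent.Helper8.UV
open Pool.Agent.Helper53.TC5

variable {n : ℕ}

lemma sees_mono {f : Flags n} {K : Fin n → Fin n → ℕ} {δ : ∀ u v : Fin n, ℤ → Fin (K u v)}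
    {Q Q' : Finset (Fin n × Fin n)} {H : Inst n → ℝ} (h : Sees f δ Q H)
    (hQ : ∀ u v : Fin n, (u : ℕ) % 3 ≠ (v : ℕ) % 3 → Has Q u v → Has Q' u v) :
    Sees f δ Q' H := by
  intro w w' hw hw' h1 h2
  refine h w w' hw hw' h1 fun u v huv => ?_
  rcases huv with huv | huv
  · by_cases hc : (u : ℕ) % 3 = (v : ℕ) % 3
    · exact h2 u v (Or.inr hc)
    · exact h2 u v (Or.inl (hQ u v hc huv))
  · exact h2 u v (Or.inr huv)

lemma side_symm' {p q : ℕ} {u v : Fin n} (h : Side p q u v) : Side p q v u := by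
  unfold Side at h ⊢
  tauto

lemma has_compl {p q : ℕ} {u v : Fin n} :
    Has (univ.filter fun c : Fin n × Fin n => ¬ Side p q c.1 c.2) u v ↔ ¬ Side p q u v := by
  unfold Has
  simp only [Finset.mem_filter, Finset.mem_univ, true_and]
  constructor
  · rintro (h | h)
    · exact h
    · exact fun hc => h (side_symm' hc)
  · exact fun h => Or.inl h

lemma side_compl {p q : ℕ} (_hpq : p < q) (_hq : q < 3) :
    side p q (univ.filter fun c : Fin n × Fin n => ¬ Side p q c.1 c.2) = 0 := by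
  classical
  unfold side
  rw [Finset.card_eq_zero, Finset.filter_eq_empty_iff]
  rintro ⟨u, v⟩ - ⟨hu, hv, hh⟩
  exact has_compl.1 hh (Or.inl ⟨hu, hv⟩)

/-- Price `0` for functions of two sides. -/
lemma price_twoSides {K : Fin n → Fin n → ℕ} {δ : Flags n → ∀ u v : Fin n, ℤ → Fin (K u v)}
    {H : Inst n → ℝ} (h : TwoSides δ H) : PriceG δ H 0 := by
  intro f
  obtain ⟨p, q, hpq, hq, hs⟩ := h f
  refine ⟨_, hs, ?_⟩
  have h0 := side_compl (n := n) hpq hq
  have hcase : (p = 0 ∧ q = 1) ∨ (p = 1 ∧ q = 2) ∨ (p = 0 ∧ q = 2) := by omega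
  rcases hcase with ⟨rfl, rfl⟩ | ⟨rfl, rfl⟩ | ⟨rfl, rfl⟩
  · exact Pool.Agent.Helper28.DG.tri_zero (Or.inl h0)
  · exact Pool.Agent.Helper28.DG.tri_zero (Or.inr (Or.inl h0))
  · exact Pool.Agent.Helper28.DG.tri_zero (Or.inr (Or.inr h0))

lemma rpow_three_half (x : ℝ) (hx : 0 ≤ x) : Real.sqrt (x * x * x) = x ^ (3 / 2 : ℝ) := by
  rw [Real.sqrt_eq_rpow, ← pow_two, ← pow_succ, ← Real.rpow_natCast, ← Real.rpow_mul hx]
  norm_num

lemma side_le_card {p q : ℕ} (hpq : p < q) (Q : Finset (Fin n × Fin n)) :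
    side p q Q ≤ Q.card := by
  classical
  unfold side
  refine Finset.card_le_card_of_injOn
    (fun c => if (c.1, c.2) ∈ Q then (c.1, c.2) else (c.2, c.1)) ?_ ?_
  · rintro ⟨u, v⟩ hc
    simp only [Finset.coe_filter, Finset.mem_univ, true_and, Set.mem_ofPred_eq] at hc
    obtain ⟨-, -, hh⟩ := hc
    simp only [Finset.mem_coe]
    split_ifs with h1
    · exact h1
    · rcases hh with hh | hh
      · exact absurd hh h1
      · exact hh
  · rintro ⟨u, v⟩ hc ⟨u', v'⟩ hc' he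
    simp only [Finset.coe_filter, Finset.mem_univ, true_and, Set.mem_ofPred_eq] at hc hc'
    obtain ⟨h1, h2, -⟩ := hc
    obtain ⟨h1', h2', -⟩ := hc'
    simp only at he
    split_ifs at he with ha hb hb
    · exact he
    · simp only [Prod.mk.injEq] at he
      rw [he.1] at h1
      omega
    · simp only [Prod.mk.injEq] at he
      rw [← he.1] at h1'
      omega
    · simp only [Prod.mk.injEq] at he
      simp only [Prod.mk.injEq]
      exact ⟨he.2, he.1⟩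

lemma tri_le_rpow (t a b c : ℕ) (ha : a ≤ t) (hb : b ≤ t) (hc : c ≤ t) :
    tri n a b c ≤ (t : ℝ) ^ (3 / 2 : ℝ) := by
  refine (Pool.Agent.Helper28.DG.tri_le_sqrt n a b c).trans ?_
  rw [← rpow_three_half _ (Nat.cast_nonneg t)]
  refine Real.sqrt_le_sqrt ?_
  have h1 : (a : ℝ) ≤ t := by exact_mod_cast ha
  have h2 : (b : ℝ) ≤ t := by exact_mod_cast hb
  have h3 : (c : ℝ) ≤ t := by exact_mod_cast hc
  gcongr

lemma price_cells {K : Fin n → Fin n → ℕ} {δ : Flags n → ∀ u v : Fin n, ℤ → Fin (K u v)}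
    {t : ℕ} {H : Inst n → ℝ} (h : Cells δ t H) : PriceG δ H ((t : ℝ) ^ (3 / 2 : ℝ)) := by
  intro f
  obtain ⟨Q, hQ, hs⟩ := h f
  exact ⟨Q, hs, tri_le_rpow t _ _ _ ((side_le_card (by norm_num) Q).trans hQ)
    ((side_le_card (by norm_num) Q).trans hQ) ((side_le_card (by norm_num) Q).trans hQ)⟩

lemma probes_le_depth (p q : ℕ) : ∀ {d : ℕ} (T : Tree n d) (w : Wts n), probes p q T w ≤ d
  | _, .leaf _, w => by
      unfold probes; exact Nat.zero_le _
  | _, .node i j next, w => by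
      have h1 := probes_le_depth p q (next (w i j)) w
      simp only [probes]
      split_ifs <;> omega

lemma priceA_of_G {K : Fin n → Fin n → ℕ} {δ : Flags n → ∀ u v : Fin n, ℤ → Fin (K u v)}
    {M : ℕ} {H : Inst n → ℝ} {κ : ℝ} (h : PriceG δ H κ) : PriceA δ M H κ := fun f =>
  Or.inl (h f)

lemma price_probes {K : Fin n → Fin n → ℕ} {δ : Flags n → ∀ u v : Fin n, ℤ → Fin (K u v)}
    {t M : ℕ} {H : Inst n → ℝ} (h : Probes δ t H) :
    PriceA δ M H ((M : ℝ) * (t : ℝ) ^ (3 / 2 : ℝ)) := by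
  intro f
  obtain ⟨T, h1, h2⟩ := h f
  refine Or.inr ⟨t, t, t, ⟨t, T, h1, fun w hw => ⟨h2 w hw, probes_le_depth _ _ _ _,
    probes_le_depth _ _ _ _, probes_le_depth _ _ _ _⟩⟩, ?_⟩
  unfold triA
  refine (min_le_left _ _).trans (le_of_eq ?_)
  rw [rpow_three_half _ (Nat.cast_nonneg t)]

/-- Fixed wires. -/
theorem clean_fixed (n K t N : ℕ) (Ω ι : Type) [Fintype Ω] [Nonempty Ω] [Fintype ι]
    (δ : Ω → Flags n → ∀ u v : Fin n, ℤ → Fin K) (H : Ω → ι ⊕ Fin N → Inst n → ℝ)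
    (hF : ∀ ω r, TwoSides (K := fun _ _ => K) (δ ω) (H ω (.inl r)))
    (hC : ∀ ω s, Cells (K := fun _ _ => K) (δ ω) t (H ω (.inr s)))
    (hdec : ∀ I : Inst n, I.Valid → Tripartite I → Decides H I) :
    (n : ℝ) ^ 3 ≤ 2 ^ 32 * (K + N * (t : ℝ) ^ (3 / 2 : ℝ)) := by
  have h1 := lower n Ω (ι ⊕ Fin N) (fun _ _ _ => K) δ H
    (fun _ r => Sum.elim (fun _ => (0 : ℝ)) (fun _ => (t : ℝ) ^ (3 / 2 : ℝ)) r)
    (by
      intro ω r
      rcases r with r | s
      · exact price_twoSides (hF ω r)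
      · exact price_cells (hC ω s)) hdec
  have hN : (0 : ℝ) < Fintype.card Ω := by exact_mod_cast Fintype.card_pos
  rcases Nat.eq_zero_or_pos n with rfl | hn
  · have : (0 : ℝ) ≤ 2 ^ 32 * (K + N * (t : ℝ) ^ (3 / 2 : ℝ)) := by positivity
    simpa using this
  have hn0 : (0 : ℝ) < n := by exact_mod_cast hn
  have h2 : (∑ _ω : Ω, ((∑ _u : Fin n, ∑ _v : Fin n, (K : ℝ)) / (n : ℝ) ^ 2 +
      ∑ r : ι ⊕ Fin N, Sum.elim (fun _ => (0 : ℝ)) (fun _ => (t : ℝ) ^ (3 / 2 : ℝ)) r)) /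
      Fintype.card Ω = K + N * (t : ℝ) ^ (3 / 2 : ℝ) := by
    simp only [Fintype.sum_sum_type, Sum.elim_inl, Sum.elim_inr, Finset.sum_const,
      Finset.card_univ, Fintype.card_fin, nsmul_eq_mul]
    field_simp
    ring
  rw [h2] at h1
  exact h1

/-- Adaptive wires. -/
theorem clean_adaptive (n K t N : ℕ) (Ω ι : Type) [Fintype Ω] [Nonempty Ω] [Fintype ι]
    (δ : Ω → Flags n → ∀ u v : Fin n, ℤ → Fin K) (H : Ω → ι ⊕ Fin N → Inst n → ℝ)
    (hF : ∀ ω r, TwoSides (K := fun _ _ => K) (δ ω) (H ω (.inl r)))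
    (hC : ∀ ω s, Probes (K := fun _ _ => K) (δ ω) t (H ω (.inr s)))
    (hdec : ∀ I : Inst n, I.Valid → Tripartite I → Decides H I) :
    (n : ℝ) ^ 3 ≤ 2 ^ 70 * (K * (1 + N * (t : ℝ) ^ (3 / 2 : ℝ))) := by
  have h1 := lowerA n Ω (ι ⊕ Fin N) (fun _ _ _ => K) (fun _ => K) (fun _ _ _ => le_rfl) δ H
    (fun _ r => Sum.elim (fun _ => (0 : ℝ)) (fun _ => (K : ℝ) * (t : ℝ) ^ (3 / 2 : ℝ)) r)
    (by
      intro ω r
      rcases r with r | s
      · exact priceA_of_G (price_twoSides (hF ω r))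
      · exact price_probes (hC ω s)) hdec
  have hN : (0 : ℝ) < Fintype.card Ω := by exact_mod_cast Fintype.card_pos
  rcases Nat.eq_zero_or_pos n with rfl | hn
  · have : (0 : ℝ) ≤ 2 ^ 70 * (K * (1 + N * (t : ℝ) ^ (3 / 2 : ℝ))) := by positivity
    simpa using this
  have hn0 : (0 : ℝ) < n := by exact_mod_cast hn
  have h2 : (∑ _ω : Ω, ((∑ _u : Fin n, ∑ _v : Fin n, (K : ℝ)) / (n : ℝ) ^ 2 +
      ∑ r : ι ⊕ Fin N, Sum.elim (fun _ => (0 : ℝ)) (fun _ => (K : ℝ) * (t : ℝ) ^ (3 / 2 : ℝ)) r)) /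
      Fintype.card Ω = K * (1 + N * (t : ℝ) ^ (3 / 2 : ℝ)) := by
    simp only [Fintype.sum_sum_type, Sum.elim_inl, Sum.elim_inr, Finset.sum_const,
      Finset.card_univ, Fintype.card_fin, nsmul_eq_mul]
    field_simp
    ring
  rw [h2] at h1
  exact h1

/-- A voter of price `0` ignores one side, up to the digests. -/
lemma twoSides_of_price {K : Fin n → Fin n → ℕ} (hn : 0 < n)
    {δ : Flags n → ∀ u v : Fin n, ℤ → Fin (K u v)}
    {H : Inst n → ℝ} (h : PriceG δ H 0) : TwoSides δ H := by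
  classical
  intro f
  obtain ⟨Q, hs, ht⟩ := h f
  have hn0 : (0 : ℝ) < n := by exact_mod_cast hn
  have hz : side 0 1 Q = 0 ∨ side 1 2 Q = 0 ∨ side 0 2 Q = 0 := by
    by_contra hc
    push Not at hc
    obtain ⟨h1, h2, h3⟩ := hc
    have e1 : (0 : ℝ) < side 0 1 Q := by exact_mod_cast Nat.pos_of_ne_zero h1
    have e2 : (0 : ℝ) < side 1 2 Q := by exact_mod_cast Nat.pos_of_ne_zero h2
    have e3 : (0 : ℝ) < side 0 2 Q := by exact_mod_cast Nat.pos_of_ne_zero h3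
    have : 0 < tri n (side 0 1 Q) (side 1 2 Q) (side 0 2 Q) := by
      unfold tri
      refine lt_min (Real.sqrt_pos.2 (by positivity)) (lt_min (lt_min (by positivity)
        (lt_min (by positivity) (by positivity))) (mul_pos hn0 (lt_min e1 (lt_min e2 e3))))
    linarith
  have key : ∀ p q : ℕ, p < q → q < 3 → side p q Q = 0 →
      Sees f (δ f) (univ.filter fun c : Fin n × Fin n => ¬ Side p q c.1 c.2) H := by
    intro p q hpq hq h0
    refine sees_mono hs fun u v _ huv => has_compl.2 fun hc => ?_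
    unfold side at h0
    rw [Finset.card_eq_zero, Finset.filter_eq_empty_iff] at h0
    rcases hc with ⟨hu, hv⟩ | ⟨hu, hv⟩
    · exact h0 (Finset.mem_univ (u, v)) ⟨hu, hv, huv⟩
    · exact h0 (Finset.mem_univ (v, u)) ⟨hv, hu, huv.symm⟩
  rcases hz with h0 | h0 | h0
  · exact ⟨0, 1, by norm_num, by norm_num, key 0 1 (by norm_num) (by norm_num) h0⟩
  · exact ⟨1, 2, by norm_num, by norm_num, key 1 2 (by norm_num) (by norm_num) h0⟩
  · exact ⟨0, 2, by norm_num, by norm_num, key 0 2 (by norm_num) (by norm_num) h0⟩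

/-- One free voter, with digests with `n ^ 3` values. -/
theorem clean_free (n : ℕ) (hn : 1 ≤ n) : ∃ (Ω : Type) (_ : Fintype Ω) (_ : Nonempty Ω)
    (δ : Ω → ℤ → Fin (n ^ 3)) (H : Ω → Inst n → ℝ),
    (∀ ω, TwoSides (K := fun _ _ => n ^ 3) (fun _ _ _ => δ ω) (H ω)) ∧
    ∀ I : Inst n, I.Valid → Tripartite I → Decides (fun ω (_ : Fin 1) => H ω) I := by
  obtain ⟨Ω, i1, i2, δ, H, h1, h2⟩ := Pool.Agent.Helper14.DG.upper_digest1 n hn
  exact ⟨Ω, i1, i2, δ, H, fun ω => twoSides_of_price (K := fun _ _ => n ^ 3) hn (h1 ω), h2⟩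

/-- Trees with three probes. -/
theorem clean_trees (n K : ℕ) (hK : 1 ≤ K) (hKn : K ≤ n ^ 3) :
    ∃ (N : ℕ) (Ω : Type) (_ : Fintype Ω) (_ : Nonempty Ω)
      (δ : Ω → ℤ → Fin K) (H : Ω → Fin N → Inst n → ℝ),
      N * K ≤ 8 * n ^ 3 ∧
      (∀ ω r, Probes (K := fun _ _ => K) (fun _ _ _ => δ ω) 3 (H ω r)) ∧
      ∀ I : Inst n, I.Valid → Tripartite I → Decides H I := by
  have hn : 1 ≤ n := by
    rcases Nat.eq_zero_or_pos n with rfl | h
    · simp at hKn
      omega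
    · exact h
  obtain ⟨p, hp1, hp⟩ := Nat.exists_infinite_primes (6 * n ^ 300 + K)
  have : Fact p.Prime := ⟨hp⟩
  refine ⟨8 * n ^ 3 / K, ZMod p, inferInstance, inferInstance,
    fun a => Pool.Agent.Helper28.DG.hsh hK a,
    fun a r => Pool.Agent.Helper28.DG.vt K a r, Nat.div_mul_le_self _ _, fun a r f => ?_, ?_⟩
  · refine ⟨fun w => Pool.Agent.Helper28.DG.trT (Pool.Agent.Helper28.DG.lst K a w)[(r : ℕ)]?,
      fun w w' h _ => ?_, fun w _ => rfl⟩
    have h1 : Pool.Agent.Helper28.DG.lst K a w = Pool.Agent.Helper28.DG.lst K a w' :=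
      Pool.Agent.Helper28.DG.lst_congr (hK := hK) a h
    simp only [h1]
  · intro I hI hT
    exact Pool.Agent.Helper28.DG.decides hn hK hKn hp1 I hI hT

end Pool.Agent.Helper94.DG
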