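import Pool.Agent.Helper94.DG.Defs

/-!
# Statements of the pieces (not imported by anything)
-/

set_option autoImplicit false

open Finset

namespace Pool.Agent.Helper94.DG.Frame

open Pool.Agent.Helper22.ETModel Pool.Agent.Helper8.VT Pool.Agent.Helper8.UV
open Pool.Agent.Helper53.TC5

/-! ## A. One part -/

/-! A0 (helper56): class averaging. -/

theorem ker_nonneg {α : Type} [Fintype α] (δ : α → ℕ) (x x' : α) : 0 ≤ ker δ x x' := sorry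

theorem ker_symm {α : Type} [Fintype α] (δ : α → ℕ) (x x' : α) : ker δ x x' = ker δ x' x := sorry

theorem ker_sum {α : Type} [Fintype α] (δ : α → ℕ) (x : α) : ∑ x', ker δ x x' = 1 := sorry

theorem eq_of_ker {α : Type} [Fintype α] (δ : α → ℕ) (x x' : α) (h : ker δ x x' ≠ 0) :
    δ x = δ x' := sorry

/-! A1 (helper14): the law of a corner. One uses, for each fixed `i`, `j`, `k`, the involution
`(X, z) ↦ (upd X i j z, X i j)`. (It also holds for `d = 000`.) -/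

theorem law {m L : ℕ} (hm : 0 < m) (hL : 0 < L) (a b : Fin m → Fin m → Fin L → ℕ)
    (c : Fin m → Fin m → Fin (2 * L) → ℕ) (d : Fin 3 → Bool) (Ψ : Arr m L → ℝ) :
    ∑ D : Data m L, mass a b c D * Ψ (corner d D) =
      (∑ S : Arr m L, densF d a b c S * Ψ S) / Fintype.card (Arr m L) := sorry

/-! A1' (helper14): the planted triangle is uniform. -/

theorem marginal {m L : ℕ} (hL : 0 < L) (a b : Fin m → Fin m → Fin L → ℕ)
    (c : Fin m → Fin m → Fin (2 * L) → ℕ) (g : Fin m × Fin m × Fin m → ℝ) :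
    ∑ D : Data m L, mass a b c D * g D.2.1 = (∑ T, g T) / (m : ℝ) ^ 3 := sorry

/-! A2 (helper56): the density of the law of three weights. -/

theorem dens_nonneg {L : ℕ} (d : Fin 3 → Bool) (a b : Fin L → ℕ) (c : Fin (2 * L) → ℕ)
    (x y : Fin L) (w : Fin (2 * L)) : 0 ≤ dens d a b c x y w := sorry

theorem dens_w {L : ℕ} (d : Fin 3 → Bool) (a b : Fin L → ℕ) (c : Fin (2 * L) → ℕ)
    (x y : Fin L) : ∑ w, dens d a b c x y w = 2 * L := sorry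

theorem dens_xy {L : ℕ} (d : Fin 3 → Bool) (a b : Fin L → ℕ) (c : Fin (2 * L) → ℕ)
    (w : Fin (2 * L)) : ∑ x, ∑ y, dens d a b c x y w ≤ 2 * (L : ℝ) ^ 2 := sorry

theorem dens_sq {L : ℕ} (d : Fin 3 → Bool) (hd : ∃ s, d s = true) (a b : Fin L → ℕ)
    (c : Fin (2 * L) → ℕ) (Ka Kb Kc : ℕ) (ha : ∀ x, a x < Ka) (hb : ∀ y, b y < Kb)
    (hc : ∀ w, c w < Kc) :
    ∑ x, ∑ y, ∑ w, dens d a b c x y w ^ 2 ≤ 2 * ((Ka : ℝ) + Kb + Kc) * (2 * (L : ℝ) ^ 3) := sorry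

/-! A3 (helper36): the second moment. -/

theorem second {m L : ℕ} (hm : 0 < m) (hL : 0 < L)
    (f : Fin m → Fin m → Fin m → Fin L → Fin L → Fin (2 * L) → ℝ)
    (h0 : ∀ i j k x y w, 0 ≤ f i j k x y w) (h1 : ∀ i j k x y, ∑ w, f i j k x y w = 2 * L)
    (h2 : ∀ i j k w, ∑ x, ∑ y, f i j k x y w ≤ 2 * (L : ℝ) ^ 2) (R : Fin m → Fin m → Fin m → ℝ)
    (h3 : ∀ i j k, ∑ x, ∑ y, ∑ w, f i j k x y w ^ 2 ≤ R i j k * (2 * (L : ℝ) ^ 3)) :
    (∑ S : Arr m L, (((m : ℝ) ^ 3)⁻¹ * ∑ i, ∑ j, ∑ k,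
      f i j k (S.1 i j) (S.2.1 j k) (S.2.2 i k) - 1) ^ 2) / Fintype.card (Arr m L) ≤
      (∑ i, ∑ j, ∑ k, R i j k) / (m : ℝ) ^ 6 + 2 / (m : ℝ) ^ 2 := sorry

/-! A4 (helper36): the distance (from A1, A2, A3 and the inequality of Cauchy and Schwarz). -/

theorem one_part {m L : ℕ} (hm : 0 < m) (hL : 0 < L) (a b : Fin m → Fin m → Fin L → ℕ)
    (c : Fin m → Fin m → Fin (2 * L) → ℕ) (Ka Kb Kc : Fin m → Fin m → ℕ)
    (ha : ∀ i j x, a i j x < Ka i j) (hb : ∀ i j x, b i j x < Kb i j)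
    (hc : ∀ i j x, c i j x < Kc i j) (d : Fin 3 → Bool) (hd : ∃ s, d s = true)
    (Ψ : Arr m L → ℝ) (h0 : ∀ S, 0 ≤ Ψ S) (h1 : ∀ S, Ψ S ≤ 1) :
    ∑ D : Data m L, mass a b c D * Ψ (corner d D) ≤ (∑ S, Ψ S) / Fintype.card (Arr m L) +
      √(2 * (∑ i, ∑ j, ((Ka i j : ℝ) + Kb i j + Kc i j)) / (m : ℝ) ^ 5 + 2 / (m : ℝ) ^ 2) := sorry

/-! ## B. Product spaces -/

/-! B1 (helper18): the hybrid argument for product measures. -/

theorem hybrid {α β : Type} [Fintype α] [Fintype β] (r : ℕ) (ρ : Fin r → α → ℝ)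
    (ν : Fin r → β → ℝ) (c : Fin r → α → β) (ε : Fin r → ℝ) (hρ0 : ∀ q x, 0 ≤ ρ q x)
    (hρ1 : ∀ q, ∑ x, ρ q x = 1) (hν0 : ∀ q y, 0 ≤ ν q y) (hν1 : ∀ q, ∑ y, ν q y = 1)
    (h : ∀ q (Ψ : β → ℝ), (∀ y, 0 ≤ Ψ y) → (∀ y, Ψ y ≤ 1) →
      ∑ x, ρ q x * Ψ (c q x) ≤ ∑ y, ν q y * Ψ y + ε q)
    (Φ : (Fin r → β) → ℝ) (h0 : ∀ S, 0 ≤ Φ S) (h1 : ∀ S, Φ S ≤ 1) :
    ∑ D : Fin r → α, (∏ q, ρ q (D q)) * Φ (fun q => c q (D q)) ≤
      ∑ S : Fin r → β, (∏ q, ν q (S q)) * Φ S + ∑ q, ε q := sorry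

/-! B2 (helper18): the product of the planted triangles is uniform (from A1'). -/

theorem marginal4 {m L : ℕ} (hL : 0 < L) (a b : Fin 4 → Fin m → Fin m → Fin L → ℕ)
    (c : Fin 4 → Fin m → Fin m → Fin (2 * L) → ℕ)
    (g : (Fin 4 → Fin m × Fin m × Fin m) → ℝ) :
    ∑ D : Fin 4 → Data m L, (∏ q, mass (a q) (b q) (c q) (D q)) * g (fun q => (D q).2.1) =
      (∑ T, g T) / ((m : ℝ) ^ 3) ^ 4 := sorry

/-! B3 (helper5): few zero triangles in uniform arrays. -/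

theorem few_yes {m L : ℕ} (hL : 0 < L) :
    ((univ.filter fun S : Fin 4 → Arr m L => ∃ (q : Fin 4) (i j k : Fin m),
      add ((S q).1 i j) ((S q).2.1 j k) = (S q).2.2 i k).card : ℝ) * (2 * L) ≤
      4 * (m : ℝ) ^ 3 * Fintype.card (Fin 4 → Arr m L) := sorry

/-! B4 (helper53): the number of the quadruples of triangles that are touched on all sides. -/

open Classical in
theorem touch {m n : ℕ} (hm : 0 < m) (hmn : m ≤ n) (A B C : Fin 4 → Fin m → Fin m → Prop)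
    (a b c : ℕ) (ha : ∀ q, (univ.filter fun e : Fin m × Fin m => A q e.1 e.2).card ≤ a)
    (hb : ∀ q, (univ.filter fun e : Fin m × Fin m => B q e.1 e.2).card ≤ b)
    (hc : ∀ q, (univ.filter fun e : Fin m × Fin m => C q e.1 e.2).card ≤ c) :
    ((univ.filter fun T : Fin 4 → Fin m × Fin m × Fin m =>
      (∃ q, A q (T q).1 (T q).2.1) ∧ (∃ q, B q (T q).2.1 (T q).2.2) ∧
        (∃ q, C q (T q).1 (T q).2.2)).card : ℝ) / ((m : ℝ) ^ 3) ^ 4 ≤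
      64 * tri n a b c / (m : ℝ) ^ 3 := sorry

/-! ## C. The instances -/

/-! C1 (helper22): the instances. -/

theorem inst_valid {m L n : ℕ} (hn : 10 * L ≤ n ^ 300) (S : Fin 4 → Arr m L) :
    (inst n S).Valid := sorry

theorem inst_tripartite {m L n : ℕ} (S : Fin 4 → Arr m L) : Tripartite (inst n S) := sorry

theorem inst_yes {m L n : ℕ} (h : 12 * m ≤ n) (hL : 0 < L) (S : Fin 4 → Arr m L) :
    (inst n S).Yes ↔ ∃ (q : Fin 4) (i j k : Fin m),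
      add ((S q).1 i j) ((S q).2.1 j k) = (S q).2.2 i k := sorry

/-! C2 (helper74): the cancellation. `mass ≠ 0` says that the digests are equal (A0). If `Q` misses
all the planted cells of the side `s` then flipping the coordinate `s` of the corner `v` does not
change the vote. -/

theorem cancel {m L n : ℕ} (h : 12 * m ≤ n) (hn : 10 * L ≤ n ^ 300) {K : Fin n → Fin n → ℕ}
    (δ : ∀ u v : Fin n, ℤ → Fin (K u v)) (Q : Finset (Fin n × Fin n)) (H : Inst n → ℝ)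
    (hH : Sees (flg n) δ Q H) (D : Fin 4 → Data m L)
    (hD : ∀ q, mass (fun i j x => (δ (vtx h 0 q i) (vtx h 1 q j) ((x : ℕ) : ℤ) : ℕ))
      (fun i j x => (δ (vtx h 1 q i) (vtx h 2 q j) ((x : ℕ) : ℤ) : ℕ))
      (fun i j x => (δ (vtx h 0 q i) (vtx h 2 q j) (-((x : ℕ) : ℤ)) : ℕ)) (D q) ≠ 0)
    (hQ : (∀ q, ¬ Has Q (vtx h 0 q (D q).2.1.1) (vtx h 1 q (D q).2.1.2.1)) ∨
      (∀ q, ¬ Has Q (vtx h 1 q (D q).2.1.2.1) (vtx h 2 q (D q).2.1.2.2)) ∨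
      (∀ q, ¬ Has Q (vtx h 0 q (D q).2.1.1) (vtx h 2 q (D q).2.1.2.2))) :
    ∑ v : Fin 3 → Bool, sgn v * H (inst n (cube v D)) = 0 := sorry

/-! C3 (helper28): the upper bounds. U1: `Ω` = the functions from the integers in
`[- 2 * n ^ 300, 2 * n ^ 300]` to `Fin (n ^ 3)`, `δ ω u v x = ω x` (`0` outside); the voter says `1`
if `ω (w u v) = ω (- w v z - w u z)` for some `u`, `v`, `z` in the classes `0`, `1`, `2`, else `0`.
There are at most `(n / 3) ^ 3` triangles. U2: from `Helper21/MP/Three.lean`. -/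

theorem price_free {n : ℕ} {K : Fin n → Fin n → ℕ}
    (δ : Flags n → ∀ u v : Fin n, ℤ → Fin (K u v)) (H : Inst n → ℝ) (hH : IsFree H) :
    PriceG δ H 0 := sorry

theorem upper_digest (n : ℕ) : ∃ (Ω : Type) (_ : Fintype Ω) (_ : Nonempty Ω)
    (δ : Ω → ∀ u v : Fin n, ℤ → Fin (n ^ 3)) (H : Ω → Inst n → ℝ),
    (∀ ω, PriceG (K := fun _ _ => n ^ 3) (fun _ => δ ω) (H ω) 0) ∧
    ∀ I : Inst n, I.Valid → Tripartite I → Decides (fun ω (_ : Fin 1) => H ω) I := sorry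

theorem upper_three (n : ℕ) :
    ∃ H : Fin ((n + 2) / 3 * ((n + 1) / 3) * (n / 3)) → Inst n → ℝ,
      (∀ r, PriceG (K := fun _ _ => 1) (fun _ _ _ _ => 0) (H r) 1) ∧
      ∀ I : Inst n, I.Valid → Tripartite I → (0 < ∑ r, H r I ↔ I.Yes) := sorry

/-! ## D. The theorem (helper94) -/

theorem lower (n : ℕ) (Ω ι : Type) [Fintype Ω] [Nonempty Ω] [Fintype ι]
    (K : Ω → Fin n → Fin n → ℕ) (δ : ∀ ω, Flags n → ∀ u v : Fin n, ℤ → Fin (K ω u v))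
    (H : Ω → ι → Inst n → ℝ) (κ : Ω → ι → ℝ) (hκ : ∀ ω r, PriceG (δ ω) (H ω r) (κ ω r))
    (hdec : ∀ I : Inst n, I.Valid → Tripartite I → Decides H I) :
    (n : ℝ) ^ 3 ≤ 2 ^ 32 *
      ((∑ ω, ((∑ u, ∑ v, (K ω u v : ℝ)) / (n : ℝ) ^ 2 + ∑ r, κ ω r)) / Fintype.card Ω) := sorry

end Pool.Agent.Helper94.DG.Frame
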