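import Pool.Agent.Helper94.DG.Defs2

/-!
# Statements of the pieces of the second part: adaptive voters (not imported by anything)

THEOREM. `n ^ 3 ≤ 2 ^ 70 * E (average of K u v + total price)`, where the price of a voter with
fixed wires is `tri n a b c`, and the price of a decision tree which knows all the digests and
probes adaptively is `triA n M a b c = min (M * √(a b c)) ((n + M) * min a b c)`, `K u v ≤ M`.

PROOF. Same cube, same laws.
(1') (G1) If the alternating sum of the votes of a tree is not zero, then at some ODD corner `v` the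
path of the tree meets planted cells of all three sides. (All corners have the same digests, so the
same tree. Suppose that all odd corners `v` miss a side; let `s v` be the least missed side. Flipping
`v` in `s v` changes neither the path nor the output, so the even corner `v'` has the same path and
the same least missed side. So `v ↦ v'` is injective from the four odd corners to the four even
ones, hence bijective, with equal votes.)
(2') (G2) At an odd corner the joint law of the planted triangles `T q` and of the arrays `S q` has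
the density `∏ q, densT (T q) (S q)` with respect to uniform `T`, `S`.
(3') (G3) By the second moments (`E f ^ 2 ≤ 6 K` for the density `f` of a triangle, and
`E (m⁻¹ * ∑ of f over a line) ^ 2 ≤ 6 K / m + 2`) the triangle `T q` is `Good` but for a probability
`24 / h`. This is paid once, not for each voter.
(4') (G4) Let `g q T = m⁻³ * densT T (S q)` if `Good`, else `0`. For all `S`, for sets of cells with
at most `a`, `b`, `c` elements, `∑ T, ∏ q, g q (T q) * [Meets]` is at most `512 * h ^ 3 * K *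
√(a b c) / m ^ 3 * ∏ q, (1 + F q)` and at most `4 * h * (m + K) * min a b c / m ^ 3 *
∏ q, (1 + F q)`, with `F q = ∑ T, g q T`. Here `E ∏ q, (1 + F q) = 16`.
-/

set_option autoImplicit false

open Finset

namespace Pool.Agent.Helper94.DG.Frame2

open Pool.Agent.Helper22.ETModel Pool.Agent.Helper8.VT Pool.Agent.Helper8.UV
open Pool.Agent.Helper53.TC5

/-! ## G1 (helper21; double: helper74): trees -/

theorem side_path {n d : ℕ} {p q : ℕ} (hpq : p < q) (hq : q < 3) (t : Tree n d) (w : Wts n) :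
    side p q (path t w) ≤ probes p q t w := sorry

theorem tree_meets {m L n : ℕ} (h : 12 * m ≤ n) (hn : 10 * L ≤ n ^ 300) {K : Fin n → Fin n → ℕ}
    (δ : ∀ u v : Fin n, ℤ → Fin (K u v)) (H : Inst n → ℝ) {d : ℕ} (t : Wts n → Tree n d)
    (ht : ∀ w w' : Wts n,
      (∀ u v : Fin n, (u : ℕ) % 3 < (v : ℕ) % 3 → δ u v (w u v) = δ u v (w' u v)) →
      (∀ u v : Fin n, (u : ℕ) % 3 = (v : ℕ) % 3 → w u v = w' u v) → t w = t w')
    (hH : ∀ w : Wts n, (⟨flg n, w⟩ : Inst n).Valid → H ⟨flg n, w⟩ = (t w).eval w)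
    (D : Fin 4 → Data m L)
    (hD : ∀ q, mass (fun i j x => (δ (vtx h 0 q i) (vtx h 1 q j) ((x : ℕ) : ℤ) : ℕ))
      (fun i j x => (δ (vtx h 1 q i) (vtx h 2 q j) ((x : ℕ) : ℤ) : ℕ))
      (fun i j x => (δ (vtx h 0 q i) (vtx h 2 q j) (-((x : ℕ) : ℤ)) : ℕ)) (D q) ≠ 0)
    (hne : ∑ v : Fin 3 → Bool, sgn v * H (inst n (cube v D)) ≠ 0) :
    ∃ v : Fin 3 → Bool, sgn v ≠ 1 ∧
      Meets (fun q i j => Has (path (t (inst n (cube v D)).wt) (inst n (cube v D)).wt)
          (vtx h 0 q i) (vtx h 1 q j))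
        (fun q i j => Has (path (t (inst n (cube v D)).wt) (inst n (cube v D)).wt)
          (vtx h 1 q i) (vtx h 2 q j))
        (fun q i j => Has (path (t (inst n (cube v D)).wt) (inst n (cube v D)).wt)
          (vtx h 0 q i) (vtx h 2 q j)) (fun q => (D q).2.1) := sorry

/-! ## G2 (helper14: law1; helper18: law4): the joint law -/

theorem law1 {m L : ℕ} (hL : 0 < L) (a b : Fin m → Fin m → Fin L → ℕ)
    (c : Fin m → Fin m → Fin (2 * L) → ℕ) (d : Fin 3 → Bool) (Ψ : Tri m → Arr m L → ℝ) :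
    ∑ D : Data m L, mass a b c D * Ψ D.2.1 (corner d D) =
      (∑ T : Tri m, ∑ S : Arr m L, densT d a b c T S * Ψ T S) /
        (Fintype.card (Arr m L) * (m : ℝ) ^ 3) := sorry

theorem law4 {m L : ℕ} (hL : 0 < L) (a b : Fin 4 → Fin m → Fin m → Fin L → ℕ)
    (c : Fin 4 → Fin m → Fin m → Fin (2 * L) → ℕ) (d : Fin 4 → Fin 3 → Bool)
    (Ψ : (Fin 4 → Tri m) → (Fin 4 → Arr m L) → ℝ) :
    ∑ D : Fin 4 → Data m L, (∏ q, mass (a q) (b q) (c q) (D q)) *
      Ψ (fun q => (D q).2.1) (fun q => corner (d q) (D q)) =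
      (∑ T : Fin 4 → Tri m, ∑ S : Fin 4 → Arr m L,
        (∏ q, densT (d q) (a q) (b q) (c q) (T q) (S q)) * Ψ T S) /
        (Fintype.card (Arr m L) * (m : ℝ) ^ 3) ^ 4 := sorry

/-! ## G3 (helper36; double: helper56): the tails -/

theorem dens_total {m L : ℕ} (hL : 0 < L) (a b : Fin m → Fin m → Fin L → ℕ)
    (c : Fin m → Fin m → Fin (2 * L) → ℕ) (d : Fin 3 → Bool) :
    ∑ T : Tri m, ∑ S : Arr m L, densT d a b c T S =
      Fintype.card (Arr m L) * (m : ℝ) ^ 3 := sorry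

open Classical in
theorem tail {m L : ℕ} (hm : 0 < m) (hL : 0 < L) (a b : Fin m → Fin m → Fin L → ℕ)
    (c : Fin m → Fin m → Fin (2 * L) → ℕ) (K : ℕ) (hK : 1 ≤ K)
    (ha : ∀ i j x, a i j x < K) (hb : ∀ i j x, b i j x < K) (hc : ∀ i j x, c i j x < K)
    (d : Fin 3 → Bool) (hd : ∃ s, d s = true) (h : ℝ) (hh : 0 < h) :
    ∑ T : Tri m, ∑ S : Arr m L,
      densT d a b c T S * (if Good d a b c h K T S then 0 else 1) ≤
      24 / h * (Fintype.card (Arr m L) * (m : ℝ) ^ 3) := sorry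

/-! ## G4 (helper53: meet_sqrt; helper56: meet_min): counting with weights, pointwise in `S` -/

open Classical in
theorem meet_min {m : ℕ} (hm : 0 < m) (g : Fin 4 → Tri m → ℝ) (F : Fin 4 → ℝ) (τ : ℝ)
    (h0 : ∀ q T, 0 ≤ g q T) (hF : ∀ q, ∑ T, g q T ≤ F q)
    (h01 : ∀ q i j, ∑ k, g q (i, j, k) ≤ τ) (h12 : ∀ q j k, ∑ i, g q (i, j, k) ≤ τ)
    (h02 : ∀ q i k, ∑ j, g q (i, j, k) ≤ τ) (A B C : Fin 4 → Fin m → Fin m → Prop)
    (a b c : ℕ) (ha : ∀ q, (univ.filter fun e : Fin m × Fin m => A q e.1 e.2).card ≤ a)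
    (hb : ∀ q, (univ.filter fun e : Fin m × Fin m => B q e.1 e.2).card ≤ b)
    (hc : ∀ q, (univ.filter fun e : Fin m × Fin m => C q e.1 e.2).card ≤ c) :
    ∑ T : Fin 4 → Tri m, (∏ q, g q (T q)) * (if Meets A B C T then 1 else 0) ≤
      4 * τ * min (a : ℝ) (min (b : ℝ) (c : ℝ)) * ∏ q, (1 + F q) := sorry

open Classical in
theorem meet_sqrt {m : ℕ} (hm : 0 < m) (g : Fin 4 → Tri m → ℝ) (F : Fin 4 → ℝ) (h K : ℝ)
    (hh : 1 ≤ h) (hK : 1 ≤ K)
    (h0 : ∀ q T, 0 ≤ g q T) (hF : ∀ q, ∑ T, g q T ≤ F q)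
    (hg : ∀ q T, g q T ≤ h * K / (m : ℝ) ^ 3)
    (h01 : ∀ q i j, ∑ k, g q (i, j, k) ≤ h * (m + K) / (m : ℝ) ^ 3)
    (h12 : ∀ q j k, ∑ i, g q (i, j, k) ≤ h * (m + K) / (m : ℝ) ^ 3)
    (h02 : ∀ q i k, ∑ j, g q (i, j, k) ≤ h * (m + K) / (m : ℝ) ^ 3)
    (A B C : Fin 4 → Fin m → Fin m → Prop)
    (a b c : ℕ) (ha : ∀ q, (univ.filter fun e : Fin m × Fin m => A q e.1 e.2).card ≤ a)
    (hb : ∀ q, (univ.filter fun e : Fin m × Fin m => B q e.1 e.2).card ≤ b)
    (hc : ∀ q, (univ.filter fun e : Fin m × Fin m => C q e.1 e.2).card ≤ c) :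
    ∑ T : Fin 4 → Tri m, (∏ q, g q (T q)) * (if Meets A B C T then 1 else 0) ≤
      512 * h ^ 3 * K * √((a : ℝ) * b * c) / (m : ℝ) ^ 3 * ∏ q, (1 + F q) := sorry

/-! ## G5 (helper28): the upper bound. `p` prime, `p ≥ 6 * n ^ 300 + K`; `Ω = ZMod p`, the digest of
`x` is `K * ((a * x) mod p) / p` (floor); a triangle is a candidate if `K` divides the sum of the
three digests plus `0`, `1` or `2`; the tree `r` probes the candidate number `r`. A triangle with
sum not `0` is a candidate with probability at most `7 / K`. -/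

theorem upper_adaptive (n K : ℕ) (hK : 1 ≤ K) (hKn : K ≤ n ^ 3) :
    ∃ (N : ℕ) (Ω : Type) (_ : Fintype Ω) (_ : Nonempty Ω)
      (δ : Ω → ∀ u v : Fin n, ℤ → Fin K) (H : Ω → Fin N → Inst n → ℝ),
      N * K ≤ 8 * n ^ 3 ∧
      (∀ ω r (f : Flags n), IsTree (K := fun _ _ => K) f (δ ω) 1 1 1 (H ω r)) ∧
      ∀ I : Inst n, I.Valid → Tripartite I → Decides H I := sorry

/-! ## G6 (helper94): the theorem -/

theorem lowerA (n : ℕ) (Ω ι : Type) [Fintype Ω] [Nonempty Ω] [Fintype ι]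
    (K : Ω → Fin n → Fin n → ℕ) (M : Ω → ℕ) (hM : ∀ ω u v, K ω u v ≤ M ω)
    (δ : ∀ ω, Flags n → ∀ u v : Fin n, ℤ → Fin (K ω u v))
    (H : Ω → ι → Inst n → ℝ) (κ : Ω → ι → ℝ) (hκ : ∀ ω r, PriceA (δ ω) (M ω) (H ω r) (κ ω r))
    (hdec : ∀ I : Inst n, I.Valid → Tripartite I → Decides H I) :
    (n : ℝ) ^ 3 ≤ 2 ^ 70 *
      ((∑ ω, ((∑ u, ∑ v, (K ω u v : ℝ)) / (n : ℝ) ^ 2 + ∑ r, κ ω r)) / Fintype.card Ω) := sorry

end Pool.Agent.Helper94.DG.Frame2
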