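import Pool.Agent.Helper94.DG.Defs
import Pool.Agent.Helper14.DG.Law
import Pool.Agent.Helper18.DG.Hybrid
import Pool.Agent.Helper21.DG.Cancel
import Pool.Agent.Helper21.DG.Yes
import Pool.Agent.Helper36.DG.A4
import Pool.Agent.Helper53.DG.Touch
import Pool.Agent.Helper56.DG.Ker
import Pool.Agent.Helper56.DG.Few

/-!
# Digests: the assembly of the lower bound
-/

set_option autoImplicit false

open Finset

namespace Pool.Agent.Helper94.DG

open Pool.Agent.Helper22.ETModel Pool.Agent.Helper8.VT Pool.Agent.Helper8.UV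
open Pool.Agent.Helper53.TC5
open Pool.Agent.Helper14.DG (law marginal)
open Pool.Agent.Helper18.DG (hybrid marginal4)
open Pool.Agent.Helper21.DG (cancel inst_valid inst_tripartite inst_yes)
open Helper36.DG (one_part)
open Pool.Agent.Helper53.DG (touch)
open Pool.Agent.Helper56.DG (ker_nonneg few_yes)

variable {n m L : ℕ} {ι : Type} [Fintype ι]

open Classical in
/-- `1` if the circuit `H` does not accept at an even corner or accepts at an odd corner. -/
noncomputable def bad (H : ι → Inst n → ℝ) (v : Fin 3 → Bool) (S : Fin 4 → Arr m L) : ℝ :=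
  if (0 < ∑ r, H r (inst n S) ↔ sgn v = 1) then 0 else 1

/-- `Q` contains planted cells in all three sides. -/
def Touch (h : 12 * m ≤ n) (Q : Finset (Fin n × Fin n))
    (T : Fin 4 → Fin m × Fin m × Fin m) : Prop :=
  (∃ q, Has Q (vtx h 0 q (T q).1) (vtx h 1 q (T q).2.1)) ∧
  (∃ q, Has Q (vtx h 1 q (T q).2.1) (vtx h 2 q (T q).2.2)) ∧
  (∃ q, Has Q (vtx h 0 q (T q).1) (vtx h 2 q (T q).2.2))

lemma bad_nonneg (H : ι → Inst n → ℝ) (v : Fin 3 → Bool) (S : Fin 4 → Arr m L) :
    0 ≤ bad H v S := by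
  unfold bad; split_ifs <;> norm_num

lemma bad_le_one (H : ι → Inst n → ℝ) (v : Fin 3 → Bool) (S : Fin 4 → Arr m L) :
    bad H v S ≤ 1 := by
  unfold bad; split_ifs <;> norm_num

lemma sgn_cases (v : Fin 3 → Bool) : sgn v = 1 ∨ sgn v = -1 := by
  unfold sgn
  rw [Fin.prod_univ_three]
  cases v 0 <;> cases v 1 <;> cases v 2 <;> simp

lemma sgn_zero : sgn (fun _ => false) = 1 := by
  unfold sgn; simp

open Classical in
lemma point (h : 12 * m ≤ n) (hn : 10 * L ≤ n ^ 300) {K : Fin n → Fin n → ℕ}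
    (δ : ∀ u v : Fin n, ℤ → Fin (K u v)) (Q : ι → Finset (Fin n × Fin n)) (H : ι → Inst n → ℝ)
    (hH : ∀ r, Sees (flg n) δ (Q r) (H r)) (D : Fin 4 → Data m L)
    (hD : ∀ q, mass (fun i j x => (δ (vtx h 0 q i) (vtx h 1 q j) ((x : ℕ) : ℤ) : ℕ))
      (fun i j x => (δ (vtx h 1 q i) (vtx h 2 q j) ((x : ℕ) : ℤ) : ℕ))
      (fun i j x => (δ (vtx h 0 q i) (vtx h 2 q j) (-((x : ℕ) : ℤ)) : ℕ)) (D q) ≠ 0) :
    1 ≤ ∑ v, bad H v (cube v D) +
      ∑ r, (if Touch h (Q r) (fun q => (D q).2.1) then (1 : ℝ) else 0) := by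
  by_cases hb : ∃ v, bad H v (cube v D) ≠ 0
  · obtain ⟨v, hv⟩ := hb
    have h1 : bad H v (cube v D) = 1 := by
      unfold bad at hv ⊢
      split_ifs at hv ⊢ with h1
      · exact absurd rfl hv
      · rfl
    have h2 : bad H v (cube v D) ≤ ∑ v, bad H v (cube v D) :=
      Finset.single_le_sum (f := fun v => bad H v (cube v D))
        (fun v _ => bad_nonneg H v _) (Finset.mem_univ v)
    have h3 : (0 : ℝ) ≤ ∑ r, (if Touch h (Q r) (fun q => (D q).2.1) then (1 : ℝ) else 0) :=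
      Finset.sum_nonneg fun r _ => by split_ifs <;> norm_num
    linarith
  · push Not at hb
    have hacc : ∀ v, (0 < ∑ r, H r (inst n (cube v D)) ↔ sgn v = 1) := by
      intro v
      by_contra hc
      have := hb v
      unfold bad at this
      rw [if_neg hc] at this
      exact one_ne_zero this
    have hpos : 0 < ∑ v : Fin 3 → Bool, sgn v * ∑ r, H r (inst n (cube v D)) := by
      refine Finset.sum_pos' (fun v _ => ?_) ⟨fun _ => false, Finset.mem_univ _, ?_⟩
      · rcases sgn_cases v with hv | hv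
        · rw [hv, one_mul]
          exact ((hacc v).2 hv).le
        · have : ¬ 0 < ∑ r, H r (inst n (cube v D)) := by
            intro hc
            have := (hacc v).1 hc
            rw [hv] at this
            norm_num at this
          rw [hv]
          linarith
      · rw [sgn_zero, one_mul]
        exact (hacc _).2 sgn_zero
    have hsw : ∑ v : Fin 3 → Bool, sgn v * ∑ r, H r (inst n (cube v D)) =
        ∑ r, ∑ v : Fin 3 → Bool, sgn v * H r (inst n (cube v D)) := by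
      rw [Finset.sum_comm]
      exact Finset.sum_congr rfl fun v _ => Finset.mul_sum _ _ _
    rw [hsw] at hpos
    obtain ⟨r, -, hr⟩ : ∃ r ∈ (Finset.univ : Finset ι),
        ∑ v : Fin 3 → Bool, sgn v * H r (inst n (cube v D)) ≠ 0 := by
      by_contra hc
      push Not at hc
      rw [Finset.sum_eq_zero hc] at hpos
      exact lt_irrefl _ hpos
    have ht : Touch h (Q r) (fun q => (D q).2.1) := by
      by_contra hc
      refine hr (cancel h hn δ (Q r) (H r) (hH r) D hD ?_)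
      unfold Touch at hc
      rw [not_and_or, not_and_or] at hc
      push Not at hc
      exact hc
    have h2 : (1 : ℝ) ≤ ∑ r, (if Touch h (Q r) (fun q => (D q).2.1) then (1 : ℝ) else 0) := by
      have h3 := Finset.single_le_sum
        (f := fun r => (if Touch h (Q r) (fun q => (D q).2.1) then (1 : ℝ) else 0))
        (fun r _ => by split_ifs <;> norm_num) (Finset.mem_univ r)
      simp only [if_pos ht] at h3
      exact h3
    have h3 : (0 : ℝ) ≤ ∑ v, bad H v (cube v D) := Finset.sum_nonneg fun v _ => bad_nonneg H v _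
    linarith

/-! ### The planted law -/

/-- The density of the law of a part with an exactly planted triangle. -/
noncomputable def pl (S : Arr m L) : ℝ :=
  ((m : ℝ) ^ 3)⁻¹ * ∑ i : Fin m, ∑ j : Fin m, ∑ k : Fin m,
    if add (S.1 i j) (S.2.1 j k) = S.2.2 i k then 2 * (L : ℝ) else 0

lemma densF_zero (a b : Fin m → Fin m → Fin L → ℕ) (c : Fin m → Fin m → Fin (2 * L) → ℕ)
    (S : Arr m L) : densF (fun _ => false) a b c S = pl S := by
  unfold densF pl
  congr 1
  refine Finset.sum_congr rfl fun i _ => Finset.sum_congr rfl fun j _ =>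
    Finset.sum_congr rfl fun k _ => ?_
  unfold dens kerd
  simp only [Bool.false_eq_true, if_false]
  rw [Finset.sum_eq_single (S.1 i j)]
  · rw [Finset.sum_eq_single (S.2.1 j k)]
    · simp only [if_true, one_mul]
      split_ifs <;> simp
    · intro y _ hy
      simp [hy]
    · intro hc
      exact absurd (Finset.mem_univ _) hc
  · intro x _ hx
    refine Finset.sum_eq_zero fun y _ => ?_
    simp [hx]
  · intro hc
    exact absurd (Finset.mem_univ _) hc

lemma pl_nonneg (S : Arr m L) : 0 ≤ pl S := by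
  unfold pl
  refine mul_nonneg (by positivity) ?_
  refine Finset.sum_nonneg fun i _ => Finset.sum_nonneg fun j _ => Finset.sum_nonneg fun k _ => ?_
  split_ifs <;> positivity

lemma exists_of_pl {S : Arr m L} (hS : pl S ≠ 0) :
    ∃ i j k, add (S.1 i j) (S.2.1 j k) = S.2.2 i k := by
  by_contra hc
  push Not at hc
  refine hS ?_
  unfold pl
  rw [Finset.sum_eq_zero, mul_zero]
  intro i _
  refine Finset.sum_eq_zero fun j _ => Finset.sum_eq_zero fun k _ => ?_
  rw [if_neg (hc i j k)]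

open Classical in
/-- The law of the part `q` with which we compare the corner `v`. -/
noncomputable def nu (v : Fin 3 → Bool) (q : Fin 4) (S : Arr m L) : ℝ :=
  (if v = even q then pl S else 1) / Fintype.card (Arr m L)

lemma card_arr_pos (hL : 0 < L) : (0 : ℝ) < Fintype.card (Arr m L) := by
  have : Nonempty (Fin L) := ⟨⟨0, hL⟩⟩
  have : Nonempty (Fin (2 * L)) := ⟨⟨0, by omega⟩⟩
  exact_mod_cast Fintype.card_pos

lemma nu_nonneg (v : Fin 3 → Bool) (q : Fin 4) (S : Arr m L) : 0 ≤ nu v q S := by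
  unfold nu
  split_ifs
  · exact div_nonneg (pl_nonneg S) (by positivity)
  · positivity

lemma sum_mass (hm : 0 < m) (hL : 0 < L) (a b : Fin m → Fin m → Fin L → ℕ)
    (c : Fin m → Fin m → Fin (2 * L) → ℕ) : ∑ D : Data m L, mass a b c D = 1 := by
  have h1 := marginal hL a b c (fun _ => 1)
  simp only [mul_one] at h1
  rw [h1]
  have : (m : ℝ) ≠ 0 := by positivity
  simp only [Finset.sum_const, Finset.card_univ, Fintype.card_prod, Fintype.card_fin,
    nsmul_eq_mul, mul_one]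
  push_cast
  field_simp

lemma sum_nu (hm : 0 < m) (hL : 0 < L) (v : Fin 3 → Bool) (q : Fin 4) :
    ∑ S : Arr m L, nu v q S = 1 := by
  have hc := card_arr_pos (m := m) hL
  unfold nu
  split_ifs
  · have h1 := law hm hL (fun _ _ _ => 0) (fun _ _ _ => 0) (fun _ _ _ => 0) (fun _ => false)
      (fun _ => 1)
    simp only [mul_one, sum_mass hm hL, densF_zero] at h1
    rw [← Finset.sum_div, ← h1]
  · rw [Finset.sum_const, Finset.card_univ, nsmul_eq_mul]
    field_simp

/-! ### One circuit -/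

lemma vtx_inj (h : 12 * m ≤ n) {c c' : Fin 3} {q q' : Fin 4} {t t' : Fin m}
    (he : vtx h c q t = vtx h c' q' t') : c = c' ∧ q = q' ∧ t = t' := by
  unfold vtx at he
  have h1 : 12 * (t : ℕ) + 3 * q + c = 12 * t' + 3 * q' + c' := by
    have := congrArg Fin.val he
    simpa using this
  have hc := c.2
  have hc' := c'.2
  have hq := q.2
  have hq' := q'.2
  refine ⟨Fin.ext ?_, Fin.ext ?_, Fin.ext ?_⟩ <;> omega

lemma vtx_mod (h : 12 * m ≤ n) (c : Fin 3) (q : Fin 4) (t : Fin m) :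
    ((vtx h c q t : Fin n) : ℕ) % 3 = c := by
  unfold vtx
  have hc := c.2
  simp only
  omega

open Classical in
lemma side_le (h : 12 * m ≤ n) (Q : Finset (Fin n × Fin n)) (c c' : Fin 3) (q : Fin 4) :
    (univ.filter fun e : Fin m × Fin m => Has Q (vtx h c q e.1) (vtx h c' q e.2)).card ≤
      side c c' Q := by
  unfold side
  refine Finset.card_le_card_of_injOn (fun e => (vtx h c q e.1, vtx h c' q e.2)) ?_ ?_
  · intro e he
    simp only [Finset.coe_filter, Finset.mem_univ, true_and, Set.mem_ofPred_eq] at he ⊢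
    exact ⟨vtx_mod h c q e.1, vtx_mod h c' q e.2, he⟩
  · intro e _ e' _ hee
    simp only [Prod.mk.injEq] at hee
    exact Prod.ext (vtx_inj h hee.1).2.2 (vtx_inj h hee.2).2.2

/-- The sum of the numbers of values of the digests in one part is at most the sum over all the
cells. -/
lemma sum_K_le (h : 12 * m ≤ n) (K : Fin n → Fin n → ℕ) (q : Fin 4) :
    ∑ i : Fin m, ∑ j : Fin m, ((K (vtx h 0 q i) (vtx h 1 q j) : ℝ) +
      K (vtx h 1 q i) (vtx h 2 q j) + K (vtx h 0 q i) (vtx h 2 q j)) ≤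
      ∑ u, ∑ v, (K u v : ℝ) := by
  classical
  have h1 : ∑ i : Fin m, ∑ j : Fin m, ((K (vtx h 0 q i) (vtx h 1 q j) : ℝ) +
      K (vtx h 1 q i) (vtx h 2 q j) + K (vtx h 0 q i) (vtx h 2 q j)) =
      ∑ e : Fin 3 × Fin m × Fin m,
        (K (vtx h (if e.1 = 1 then 1 else 0) q e.2.1) (vtx h (if e.1 = 0 then 1 else 2) q e.2.2)
          : ℝ) := by
    rw [Fintype.sum_prod_type, Fin.sum_univ_three]
    simp only [Fintype.sum_prod_type]
    rw [← Finset.sum_add_distrib, ← Finset.sum_add_distrib]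
    refine Finset.sum_congr rfl fun i _ => ?_
    rw [← Finset.sum_add_distrib, ← Finset.sum_add_distrib]
    refine Finset.sum_congr rfl fun j _ => ?_
    simp
  have h2 : ∑ u, ∑ v, (K u v : ℝ) = ∑ c : Fin n × Fin n, (K c.1 c.2 : ℝ) := by
    rw [Fintype.sum_prod_type]
  rw [h1, h2]
  have h3 : Function.Injective (fun e : Fin 3 × Fin m × Fin m =>
      ((vtx h (if e.1 = 1 then 1 else 0) q e.2.1, vtx h (if e.1 = 0 then 1 else 2) q e.2.2) :
        Fin n × Fin n)) := by
    rintro ⟨e, i, j⟩ ⟨e', i', j'⟩ hee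
    simp only [Prod.mk.injEq] at hee
    obtain ⟨ha, -, hb⟩ := vtx_inj h hee.1
    obtain ⟨hc, -, hd⟩ := vtx_inj h hee.2
    have : e = e' := by
      fin_cases e <;> fin_cases e' <;> simp_all
    simp only [Prod.mk.injEq]
    exact ⟨this, hb, hd⟩
  calc ∑ e : Fin 3 × Fin m × Fin m,
        (K (vtx h (if e.1 = 1 then 1 else 0) q e.2.1) (vtx h (if e.1 = 0 then 1 else 2) q e.2.2)
          : ℝ) = ∑ c ∈ Finset.univ.image (fun e : Fin 3 × Fin m × Fin m =>
      ((vtx h (if e.1 = 1 then 1 else 0) q e.2.1, vtx h (if e.1 = 0 then 1 else 2) q e.2.2) :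
        Fin n × Fin n)), (K c.1 c.2 : ℝ) := by
        rw [Finset.sum_image (fun e _ e' _ hee => h3 hee)]
    _ ≤ ∑ c : Fin n × Fin n, (K c.1 c.2 : ℝ) :=
        Finset.sum_le_sum_of_subset_of_nonneg (Finset.subset_univ _) fun c _ _ => by positivity

/-- The distance of the law of a part from the uniform law. -/
noncomputable def eta (m : ℕ) (KK : ℝ) : ℝ := √(2 * KK / (m : ℝ) ^ 5 + 2 / (m : ℝ) ^ 2)

lemma eta_nonneg (m : ℕ) (KK : ℝ) : 0 ≤ eta m KK := Real.sqrt_nonneg _

lemma mass_nonneg (a b : Fin m → Fin m → Fin L → ℕ) (c : Fin m → Fin m → Fin (2 * L) → ℕ)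
    (D : Data m L) : 0 ≤ mass a b c D := by
  unfold mass
  have h1 := fun (α : Type) (_ : Fintype α) (δ : α → ℕ) x x' => ker_nonneg δ x x'
  exact mul_nonneg (by positivity) (mul_nonneg (mul_nonneg (h1 _ _ _ _ _) (h1 _ _ _ _ _))
    (h1 _ _ _ _ _))

open Classical in
/-- The inequality of one circuit. -/
lemma circuit (hm : 0 < m) (hL : 0 < L) (h : 12 * m ≤ n) (hn : 10 * L ≤ n ^ 300)
    {K : Fin n → Fin n → ℕ} (δ : ∀ u v : Fin n, ℤ → Fin (K u v))
    (Q : ι → Finset (Fin n × Fin n)) (H : ι → Inst n → ℝ)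
    (hH : ∀ r, Sees (flg n) δ (Q r) (H r)) (κ : ι → ℝ)
    (hκ : ∀ r, tri n (side 0 1 (Q r)) (side 1 2 (Q r)) (side 0 2 (Q r)) ≤ κ r) :
    1 ≤ ∑ v, ∑ S : Fin 4 → Arr m L, (∏ q, nu v q (S q)) * bad H v S +
      32 * eta m (∑ u, ∑ v, (K u v : ℝ)) + 64 * (∑ r, κ r) / (m : ℝ) ^ 3 := by
  -- the labels
  set la : Fin 4 → Fin m → Fin m → Fin L → ℕ := fun q i j x =>
    (δ (vtx h 0 q i) (vtx h 1 q j) ((x : ℕ) : ℤ) : ℕ) with hla
  set lb : Fin 4 → Fin m → Fin m → Fin L → ℕ := fun q i j x =>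
    (δ (vtx h 1 q i) (vtx h 2 q j) ((x : ℕ) : ℤ) : ℕ) with hlb
  set lc : Fin 4 → Fin m → Fin m → Fin (2 * L) → ℕ := fun q i j x =>
    (δ (vtx h 0 q i) (vtx h 2 q j) (-((x : ℕ) : ℤ)) : ℕ) with hlc
  set KK : ℝ := ∑ u, ∑ v, (K u v : ℝ) with hKK
  have hρ0 : ∀ q (D : Data m L), 0 ≤ mass (la q) (lb q) (lc q) D := fun q D => mass_nonneg _ _ _ D
  have hρ1 : ∀ q, ∑ D : Data m L, mass (la q) (lb q) (lc q) D = 1 := fun q => sum_mass hm hL _ _ _
  have hprod : ∀ D : Fin 4 → Data m L, 0 ≤ ∏ q, mass (la q) (lb q) (lc q) (D q) :=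
    fun D => Finset.prod_nonneg fun q _ => hρ0 q _
  have htot : ∑ D : Fin 4 → Data m L, ∏ q, mass (la q) (lb q) (lc q) (D q) = 1 := by
    have h0 := Finset.prod_univ_sum (fun _ : Fin 4 => (Finset.univ : Finset (Data m L)))
      (fun q D => mass (la q) (lb q) (lc q) D)
    rw [Fintype.piFinset_univ] at h0
    rw [← h0]
    exact Finset.prod_eq_one fun q _ => hρ1 q
  -- integrate the pointwise inequality
  have h1 : (1 : ℝ) ≤ ∑ D : Fin 4 → Data m L, (∏ q, mass (la q) (lb q) (lc q) (D q)) *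
      (∑ v, bad H v (cube v D) +
        ∑ r, (if Touch h (Q r) (fun q => (D q).2.1) then (1 : ℝ) else 0)) := by
    refine htot.symm.le.trans (Finset.sum_le_sum fun D _ => ?_)
    by_cases h0 : ∏ q, mass (la q) (lb q) (lc q) (D q) = 0
    · rw [h0, zero_mul]
    · have h2 : ∀ q, mass (la q) (lb q) (lc q) (D q) ≠ 0 := fun q hq =>
        h0 (Finset.prod_eq_zero (Finset.mem_univ q) hq)
      have h3 := point h hn δ Q H hH D h2
      calc ∏ q, mass (la q) (lb q) (lc q) (D q)
          = (∏ q, mass (la q) (lb q) (lc q) (D q)) * 1 := (mul_one _).symm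
        _ ≤ _ := mul_le_mul_of_nonneg_left h3 (hprod D)
  -- split
  have h2 : ∑ D : Fin 4 → Data m L, (∏ q, mass (la q) (lb q) (lc q) (D q)) *
      (∑ v, bad H v (cube v D) +
        ∑ r, (if Touch h (Q r) (fun q => (D q).2.1) then (1 : ℝ) else 0)) =
      ∑ v, (∑ D : Fin 4 → Data m L, (∏ q, mass (la q) (lb q) (lc q) (D q)) *
        bad H v (cube v D)) +
      ∑ r, (∑ D : Fin 4 → Data m L, (∏ q, mass (la q) (lb q) (lc q) (D q)) *
        (if Touch h (Q r) (fun q => (D q).2.1) then (1 : ℝ) else 0)) := by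
    simp only [mul_add, Finset.mul_sum, Finset.sum_add_distrib]
    rw [Finset.sum_comm]
    congr 1
    rw [Finset.sum_comm]
  -- the corners
  have h3 : ∀ v, ∑ D : Fin 4 → Data m L, (∏ q, mass (la q) (lb q) (lc q) (D q)) *
      bad H v (cube v D) ≤ ∑ S : Fin 4 → Arr m L, (∏ q, nu v q (S q)) * bad H v S +
        4 * eta m KK := by
    intro v
    have h4 := hybrid 4 (fun q => mass (la q) (lb q) (lc q)) (fun q => nu v q)
      (fun q => corner (fun s => xor (v s) (even q s))) (fun _ => eta m KK) hρ0 hρ1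
      (fun q S => nu_nonneg v q S) (fun q => sum_nu hm hL v q) ?_ (bad H v) (bad_nonneg H v)
      (bad_le_one H v)
    · simp only [Finset.sum_const, Finset.card_univ, Fintype.card_fin, nsmul_eq_mul] at h4
      push_cast at h4
      exact h4
    · intro q Ψ hΨ0 hΨ1
      by_cases hv : v = even q
      · have h5 := law hm hL (la q) (lb q) (lc q) (fun _ => false) Ψ
        have h6 : (fun s => xor (v s) (even q s)) = fun _ => false := by
          funext s; rw [hv]; simp
        simp only [h6, h5, densF_zero]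
        have h7 : ∑ y : Arr m L, nu v q y * Ψ y =
            (∑ S : Arr m L, pl S * Ψ S) / Fintype.card (Arr m L) := by
          unfold nu
          simp only [if_pos hv]
          rw [Finset.sum_div]
          exact Finset.sum_congr rfl fun S _ => by ring
        rw [h7]
        linarith [eta_nonneg m KK]
      · have h6 : ∃ s, (fun s => xor (v s) (even q s)) s = true := by
          by_contra hc
          push Not at hc
          refine hv (funext fun s => ?_)
          have := hc s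
          simpa using this
        have h5 := one_part hm hL (la q) (lb q) (lc q)
          (fun i j => K (vtx h 0 q i) (vtx h 1 q j)) (fun i j => K (vtx h 1 q i) (vtx h 2 q j))
          (fun i j => K (vtx h 0 q i) (vtx h 2 q j)) (fun i j x => (δ _ _ _).2)
          (fun i j x => (δ _ _ _).2) (fun i j x => (δ _ _ _).2) _ h6 Ψ hΨ0 hΨ1
        have h7 : ∑ y : Arr m L, nu v q y * Ψ y = (∑ S, Ψ S) / Fintype.card (Arr m L) := by
          unfold nu
          simp only [if_neg hv]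
          rw [Finset.sum_div]
          exact Finset.sum_congr rfl fun S _ => by ring
        have h8 : √(2 * (∑ i : Fin m, ∑ j : Fin m, ((K (vtx h 0 q i) (vtx h 1 q j) : ℝ) +
            K (vtx h 1 q i) (vtx h 2 q j) + K (vtx h 0 q i) (vtx h 2 q j))) / (m : ℝ) ^ 5 +
            2 / (m : ℝ) ^ 2) ≤ eta m KK := by
          unfold eta
          refine Real.sqrt_le_sqrt ?_
          have h9 := sum_K_le h K q
          have h10 : (0 : ℝ) < (m : ℝ) ^ 5 := by positivity
          gcongr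
        rw [h7]
        linarith
  -- the touched triangles
  have h4 : ∀ r, ∑ D : Fin 4 → Data m L, (∏ q, mass (la q) (lb q) (lc q) (D q)) *
      (if Touch h (Q r) (fun q => (D q).2.1) then (1 : ℝ) else 0) ≤ 64 * κ r / (m : ℝ) ^ 3 := by
    intro r
    rw [marginal4 (fun a b c g => marginal hL a b c g) la lb lc (fun T => if Touch h (Q r) T then (1 : ℝ) else 0)]
    rw [Finset.sum_boole]
    have h5 := touch hm (by omega : m ≤ n) (fun q i j => Has (Q r) (vtx h 0 q i) (vtx h 1 q j))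
      (fun q i j => Has (Q r) (vtx h 1 q i) (vtx h 2 q j))
      (fun q i j => Has (Q r) (vtx h 0 q i) (vtx h 2 q j))
      (side 0 1 (Q r)) (side 1 2 (Q r)) (side 0 2 (Q r))
      (fun q => side_le h (Q r) 0 1 q) (fun q => side_le h (Q r) 1 2 q)
      (fun q => side_le h (Q r) 0 2 q)
    have h6 : (64 : ℝ) * tri n (side 0 1 (Q r)) (side 1 2 (Q r)) (side 0 2 (Q r)) / (m : ℝ) ^ 3 ≤
        64 * κ r / (m : ℝ) ^ 3 := by
      have := hκ r
      gcongr
    refine le_trans (le_of_eq ?_) (h5.trans h6)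
    have h7 : (Finset.univ.filter fun T => Touch h (Q r) T) =
        Finset.univ.filter fun T : Fin 4 → Fin m × Fin m × Fin m =>
          (∃ q, Has (Q r) (vtx h 0 q (T q).1) (vtx h 1 q (T q).2.1)) ∧
          (∃ q, Has (Q r) (vtx h 1 q (T q).2.1) (vtx h 2 q (T q).2.2)) ∧
          (∃ q, Has (Q r) (vtx h 0 q (T q).1) (vtx h 2 q (T q).2.2)) := by
      ext T
      simp only [Finset.mem_filter, Finset.mem_univ, true_and]
      exact Iff.rfl
    rw [h7]
  calc (1 : ℝ) ≤ _ := h1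
    _ = _ := h2
    _ ≤ ∑ v, (∑ S : Fin 4 → Arr m L, (∏ q, nu v q (S q)) * bad H v S + 4 * eta m KK) +
        ∑ r, 64 * κ r / (m : ℝ) ^ 3 :=
        add_le_add (Finset.sum_le_sum fun v _ => h3 v) (Finset.sum_le_sum fun r _ => h4 r)
    _ = _ := by
        have h5 : ∑ _v : Fin 3 → Bool, 4 * eta m KK = 32 * eta m KK := by
          rw [Finset.sum_const, Finset.card_univ]
          simp only [Fintype.card_pi, Fintype.card_bool, Finset.prod_const, Finset.card_univ,
            Fintype.card_fin, nsmul_eq_mul]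
          push_cast
          ring
        rw [Finset.sum_add_distrib, h5, ← Finset.sum_div, ← Finset.mul_sum]

/-! ### The average over the circuits -/

lemma even_of_sgn (v : Fin 3 → Bool) (hv : sgn v = 1) : ∃ q, v = even q := by
  have h0 : v = ![v 0, v 1, v 2] := by
    funext s; fin_cases s <;> rfl
  unfold sgn at hv
  rw [Fin.prod_univ_three] at hv
  rcases h1 : v 0 with _ | _ <;> rcases h2 : v 1 with _ | _ <;> rcases h3 : v 2 with _ | _ <;>
    rw [h1, h2, h3] at h0 hv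
  · exact ⟨0, h0⟩
  · norm_num at hv
  · norm_num at hv
  · exact ⟨1, h0⟩
  · norm_num at hv
  · exact ⟨2, h0⟩
  · exact ⟨3, h0⟩
  · norm_num at hv

lemma sgn_even (q : Fin 4) : sgn (even q) = 1 := by
  unfold sgn
  rw [Fin.prod_univ_three]
  fin_cases q <;> simp [even]

section Average

variable {Ω : Type} [Fintype Ω]

open Classical in
lemma wrong (hn : 10 * L ≤ n ^ 300) (H : Ω → ι → Inst n → ℝ)
    (hdec : ∀ I : Inst n, I.Valid → Tripartite I → Decides H I) (S : Fin 4 → Arr m L) :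
    ∑ ω, (if (0 < ∑ r, H ω r (inst n S) ↔ (inst n S).Yes) then (0 : ℝ) else 1) ≤
      Fintype.card Ω / 20 := by
  have h1 := hdec (inst n S) (inst_valid hn S) (inst_tripartite S)
  unfold Decides at h1
  have h2 : ∑ ω, (if (0 < ∑ r, H ω r (inst n S) ↔ (inst n S).Yes) then (0 : ℝ) else 1) =
      Fintype.card Ω - ((Finset.univ.filter fun ω : Ω =>
        (0 < ∑ r, H ω r (inst n S) ↔ (inst n S).Yes)).card : ℝ) := by
    rw [← Finset.sum_boole]
    have h3 : (Fintype.card Ω : ℝ) = ∑ _ω : Ω, (1 : ℝ) := by simp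
    rw [h3, ← Finset.sum_sub_distrib]
    refine Finset.sum_congr rfl fun ω _ => ?_
    split_ifs <;> norm_num
  have h4 : ((19 * Fintype.card Ω : ℕ) : ℝ) ≤ ((20 * (Finset.univ.filter fun ω : Ω =>
        (0 < ∑ r, H ω r (inst n S) ↔ (inst n S).Yes)).card : ℕ) : ℝ) := by
    refine Nat.cast_le.2 (h1.trans (le_of_eq ?_))
    refine congrArg (fun z => 20 * z) (congrArg Finset.card ?_)
    ext ω
    simp only [Finset.mem_filter, Finset.mem_univ, true_and]
  push_cast at h4
  rw [h2]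
  linarith

open Classical in
lemma average (hm : 0 < m) (hL : 0 < L) (h : 12 * m ≤ n) (hn : 10 * L ≤ n ^ 300)
    (H : Ω → ι → Inst n → ℝ)
    (hdec : ∀ I : Inst n, I.Valid → Tripartite I → Decides H I) (v : Fin 3 → Bool) :
    ∑ ω, ∑ S : Fin 4 → Arr m L, (∏ q, nu v q (S q)) * bad (H ω) v S ≤
      Fintype.card Ω * (1 / 20 + 2 * (m : ℝ) ^ 3 / L) := by
  have hLr : (0 : ℝ) < L := by exact_mod_cast hL
  have hc := card_arr_pos (m := m) hL
  have hN : (0 : ℝ) ≤ Fintype.card Ω := by positivity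
  have hnn : ∀ S : Fin 4 → Arr m L, 0 ≤ ∏ q, nu v q (S q) :=
    fun S => Finset.prod_nonneg fun q _ => nu_nonneg v q _
  have htot : ∑ S : Fin 4 → Arr m L, ∏ q, nu v q (S q) = 1 := by
    have h0 := Finset.prod_univ_sum (fun _ : Fin 4 => (Finset.univ : Finset (Arr m L)))
      (fun q S => nu v q S)
    rw [Fintype.piFinset_univ] at h0
    rw [← h0]
    exact Finset.prod_eq_one fun q _ => sum_nu hm hL v q
  have hsw : ∑ ω, ∑ S : Fin 4 → Arr m L, (∏ q, nu v q (S q)) * bad (H ω) v S =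
      ∑ S : Fin 4 → Arr m L, (∏ q, nu v q (S q)) * ∑ ω, bad (H ω) v S := by
    rw [Finset.sum_comm]
    exact Finset.sum_congr rfl fun S _ => (Finset.mul_sum _ _ _).symm
  rw [hsw]
  by_cases hv : sgn v = 1
  · -- an even corner
    obtain ⟨q0, hq0⟩ := even_of_sgn v hv
    have h1 : ∀ S : Fin 4 → Arr m L, (∏ q, nu v q (S q)) * ∑ ω, bad (H ω) v S ≤
        (∏ q, nu v q (S q)) * (Fintype.card Ω / 20) := by
      intro S
      by_cases h0 : ∏ q, nu v q (S q) = 0
      · rw [h0, zero_mul, zero_mul]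
      · have h2 : nu v q0 (S q0) ≠ 0 := fun hz =>
          h0 (Finset.prod_eq_zero (Finset.mem_univ q0) hz)
        have h3 : pl (S q0) ≠ 0 := by
          intro hz
          refine h2 ?_
          unfold nu
          rw [if_pos hq0, hz, zero_div]
        obtain ⟨i, j, k, hijk⟩ := exists_of_pl h3
        have hyes : (inst n S).Yes := (inst_yes h hL S).2 ⟨q0, i, j, k, hijk⟩
        refine mul_le_mul_of_nonneg_left ?_ (hnn S)
        refine le_trans (le_of_eq ?_) (wrong hn H hdec S)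
        refine Finset.sum_congr rfl fun ω _ => ?_
        unfold bad
        simp only [hv, hyes]
    refine (Finset.sum_le_sum fun S _ => h1 S).trans ?_
    rw [← Finset.sum_mul, htot, one_mul]
    have : (0 : ℝ) ≤ 2 * (m : ℝ) ^ 3 / L := by positivity
    nlinarith
  · -- an odd corner
    have hq : ∀ q, v ≠ even q := fun q hq => hv (by rw [hq]; exact sgn_even q)
    have hnu : ∀ S : Fin 4 → Arr m L, ∏ q, nu v q (S q) =
        ((Fintype.card (Fin 4 → Arr m L) : ℝ))⁻¹ := by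
      intro S
      have h2 : ∀ q, nu v q (S q) = (Fintype.card (Arr m L) : ℝ)⁻¹ := by
        intro q
        unfold nu
        rw [if_neg (hq q), one_div]
      simp only [h2, Finset.prod_const, Finset.card_univ, Fintype.card_fin]
      rw [Fintype.card_fun]
      push_cast
      rw [Fintype.card_fin, inv_pow]
    have h1 : ∀ S : Fin 4 → Arr m L, ∑ ω, bad (H ω) v S ≤
        Fintype.card Ω / 20 + Fintype.card Ω *
          (if (∃ (q : Fin 4) (i j k : Fin m),
            add ((S q).1 i j) ((S q).2.1 j k) = (S q).2.2 i k) then 1 else 0) := by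
      intro S
      split_ifs with hy
      · have h2 : ∑ ω, bad (H ω) v S ≤ ∑ _ω : Ω, (1 : ℝ) :=
          Finset.sum_le_sum fun ω _ => bad_le_one _ _ _
        simp only [Finset.sum_const, Finset.card_univ, nsmul_eq_mul, mul_one] at h2
        have h3 : (0 : ℝ) ≤ Fintype.card Ω / 20 := by positivity
        linarith
      · have hno : ¬ (inst n S).Yes := fun hc => hy ((inst_yes h hL S).1 hc)
        rw [mul_zero, add_zero]
        refine le_trans (le_of_eq ?_) (wrong hn H hdec S)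
        refine Finset.sum_congr rfl fun ω _ => ?_
        unfold bad
        simp only [hv, hno]
    calc ∑ S : Fin 4 → Arr m L, (∏ q, nu v q (S q)) * ∑ ω, bad (H ω) v S
        ≤ ∑ S : Fin 4 → Arr m L, (∏ q, nu v q (S q)) * (Fintype.card Ω / 20 + Fintype.card Ω *
          (if (∃ (q : Fin 4) (i j k : Fin m),
            add ((S q).1 i j) ((S q).2.1 j k) = (S q).2.2 i k) then 1 else 0)) :=
          Finset.sum_le_sum fun S _ => mul_le_mul_of_nonneg_left (h1 S) (hnn S)
      _ = Fintype.card Ω / 20 + Fintype.card Ω *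
          ((Fintype.card (Fin 4 → Arr m L) : ℝ)⁻¹ *
            ((Finset.univ.filter fun S : Fin 4 → Arr m L => ∃ (q : Fin 4) (i j k : Fin m),
            add ((S q).1 i j) ((S q).2.1 j k) = (S q).2.2 i k).card : ℝ)) := by
          simp only [mul_add, Finset.sum_add_distrib]
          congr 1
          · rw [← Finset.sum_mul, htot, one_mul]
          · simp only [hnu]
            rw [← Finset.mul_sum, ← Finset.mul_sum, Finset.sum_boole]
            ring
      _ ≤ Fintype.card Ω * (1 / 20 + 2 * (m : ℝ) ^ 3 / L) := by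
          have h3 := few_yes (m := m) hL
          have hC : (0 : ℝ) < Fintype.card (Fin 4 → Arr m L) := by
            rw [Fintype.card_fun]
            push_cast
            positivity
          have h4 : (Fintype.card (Fin 4 → Arr m L) : ℝ)⁻¹ *
            ((Finset.univ.filter fun S : Fin 4 → Arr m L => ∃ (q : Fin 4) (i j k : Fin m),
            add ((S q).1 i j) ((S q).2.1 j k) = (S q).2.2 i k).card : ℝ) ≤
              2 * (m : ℝ) ^ 3 / L := by
            rw [inv_mul_le_iff₀ hC, mul_div_assoc', le_div_iff₀ hLr]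
            linarith
          have h5 := mul_le_mul_of_nonneg_left h4 hN
          linarith

end Average

/-! ### The theorem -/

lemma tri_nonneg (n a b c : ℕ) : 0 ≤ tri n a b c := by
  unfold tri
  positivity

lemma am_gm (z : ℝ) (hz : 0 ≤ z) : 32 * √z ≤ 1 / 5 + 1280 * z := by
  have h1 := Real.sq_sqrt hz
  nlinarith [sq_nonneg (√z - 1 / 80)]

theorem lower (n : ℕ) (Ω ι : Type) [Fintype Ω] [Nonempty Ω] [Fintype ι]
    (K : Ω → Fin n → Fin n → ℕ) (δ : ∀ ω, Flags n → ∀ u v : Fin n, ℤ → Fin (K ω u v))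
    (H : Ω → ι → Inst n → ℝ) (κ : Ω → ι → ℝ) (hκ : ∀ ω r, PriceG (δ ω) (H ω r) (κ ω r))
    (hdec : ∀ I : Inst n, I.Valid → Tripartite I → Decides H I) :
    (n : ℝ) ^ 3 ≤ 2 ^ 32 *
      ((∑ ω, ((∑ u, ∑ v, (K ω u v : ℝ)) / (n : ℝ) ^ 2 + ∑ r, κ ω r)) / Fintype.card Ω) := by
  have hN : (0 : ℝ) < Fintype.card Ω := by exact_mod_cast Fintype.card_pos
  have hκ0 : ∀ ω r, 0 ≤ κ ω r := by
    intro ω r
    obtain ⟨Q, -, hQ⟩ := hκ ω r (flg n)
    exact (tri_nonneg _ _ _ _).trans hQ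
  have hκs : ∀ ω, 0 ≤ ∑ r, κ ω r := fun ω => Finset.sum_nonneg fun r _ => hκ0 ω r
  have hK0 : ∀ ω, 0 ≤ ∑ u, ∑ v, (K ω u v : ℝ) := fun ω =>
    Finset.sum_nonneg fun u _ => Finset.sum_nonneg fun v _ => by positivity
  rcases Nat.eq_zero_or_pos n with h0 | hpos
  · subst h0
    have : 0 ≤ ((∑ ω, ((∑ u, ∑ v, (K ω u v : ℝ)) / ((0 : ℕ) : ℝ) ^ 2 + ∑ r, κ ω r)) /
        Fintype.card Ω) := by
      refine div_nonneg (Finset.sum_nonneg fun ω _ => ?_) hN.le
      have := hκs ω
      have := hK0 ω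
      positivity
    norm_num at this ⊢
    linarith
  have hn0 : (0 : ℝ) < n := by exact_mod_cast hpos
  rcases Nat.lt_or_ge n 1600 with hsmall | hbig
  · -- small `n`
    have h1 : ∀ ω, 1 ≤ (∑ u, ∑ v, (K ω u v : ℝ)) / (n : ℝ) ^ 2 + ∑ r, κ ω r := by
      intro ω
      have h2 : (n : ℝ) ^ 2 ≤ ∑ u, ∑ v, (K ω u v : ℝ) := by
        have h3 : ∀ u v, (1 : ℝ) ≤ K ω u v := by
          intro u v
          have := (δ ω (flg n) u v 0).2
          exact_mod_cast (by omega : 1 ≤ K ω u v)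
        calc (n : ℝ) ^ 2 = ∑ _u : Fin n, ∑ _v : Fin n, (1 : ℝ) := by simp [sq]
          _ ≤ _ := Finset.sum_le_sum fun u _ => Finset.sum_le_sum fun v _ => h3 u v
      have h4 : 1 ≤ (∑ u, ∑ v, (K ω u v : ℝ)) / (n : ℝ) ^ 2 := by
        rw [le_div_iff₀ (by positivity), one_mul]
        exact h2
      have := hκs ω
      linarith
    have h5 : 1 ≤ (∑ ω, ((∑ u, ∑ v, (K ω u v : ℝ)) / (n : ℝ) ^ 2 + ∑ r, κ ω r)) /
        Fintype.card Ω := by
      rw [le_div_iff₀ hN, one_mul]
      calc (Fintype.card Ω : ℝ) = ∑ _ω : Ω, (1 : ℝ) := by simp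
        _ ≤ _ := Finset.sum_le_sum fun ω _ => h1 ω
    have h6 : (n : ℝ) ≤ 1600 := by exact_mod_cast hsmall.le
    have h7 : (n : ℝ) ^ 3 ≤ 1600 ^ 3 := pow_le_pow_left₀ hn0.le h6 3
    nlinarith
  · -- big `n`
    obtain ⟨m, hm⟩ : ∃ m, m = n / 12 := ⟨_, rfl⟩
    have h12 : 12 * m ≤ n := by omega
    have hm133 : 133 ≤ m := by omega
    have hn12 : n ≤ 12 * m + 11 := by omega
    have hL : 0 < n ^ 4 := by positivity
    have hLn : 10 * n ^ 4 ≤ n ^ 300 := by
      calc 10 * n ^ 4 ≤ n * n ^ 4 := Nat.mul_le_mul_right _ (by omega)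
        _ = n ^ 5 := by ring
        _ ≤ n ^ 300 := Nat.pow_le_pow_right hpos (by norm_num)
    have hm0 : 0 < m := by omega
    choose Q hQ hQκ using fun ω r => hκ ω r (flg n)
    have hcirc := fun ω => circuit hm0 hL h12 hLn (δ ω (flg n)) (Q ω) (H ω) (fun r => hQ ω r)
      (κ ω) (fun r => hQκ ω r)
    have hmr : (133 : ℝ) ≤ m := by exact_mod_cast hm133
    have hm3 : (0 : ℝ) < (m : ℝ) ^ 3 := by positivity
    obtain ⟨A, hA⟩ : ∃ A : ℝ, A = ∑ ω, ∑ u, ∑ v, (K ω u v : ℝ) := ⟨_, rfl⟩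
    obtain ⟨B, hB⟩ : ∃ B : ℝ, B = ∑ ω, ∑ r, κ ω r := ⟨_, rfl⟩
    have hA0 : 0 ≤ A := by rw [hA]; exact Finset.sum_nonneg fun ω _ => hK0 ω
    have hB0 : 0 ≤ B := by rw [hB]; exact Finset.sum_nonneg fun ω _ => hκs ω
    have h1 : (Fintype.card Ω : ℝ) ≤ ∑ ω, (∑ v, ∑ S : Fin 4 → Arr m (n ^ 4),
        (∏ q, nu v q (S q)) * bad (H ω) v S +
        (1 / 5 + 1280 * (2 * (∑ u, ∑ v, (K ω u v : ℝ)) / (m : ℝ) ^ 5 + 2 / (m : ℝ) ^ 2)) +
        64 * (∑ r, κ ω r) / (m : ℝ) ^ 3) := by
      calc (Fintype.card Ω : ℝ) = ∑ _ω : Ω, (1 : ℝ) := by simp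
        _ ≤ _ := Finset.sum_le_sum fun ω _ => ?_
      have h2 := hcirc ω
      have h3 : 32 * eta m (∑ u, ∑ v, (K ω u v : ℝ)) ≤ 1 / 5 + 1280 *
          (2 * (∑ u, ∑ v, (K ω u v : ℝ)) / (m : ℝ) ^ 5 + 2 / (m : ℝ) ^ 2) := by
        unfold eta
        refine am_gm _ ?_
        have := hK0 ω
        positivity
      linarith
    have h4 : ∑ ω, (∑ v, ∑ S : Fin 4 → Arr m (n ^ 4),
        (∏ q, nu v q (S q)) * bad (H ω) v S +
        (1 / 5 + 1280 * (2 * (∑ u, ∑ v, (K ω u v : ℝ)) / (m : ℝ) ^ 5 + 2 / (m : ℝ) ^ 2)) +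
        64 * (∑ r, κ ω r) / (m : ℝ) ^ 3) =
        (∑ v, ∑ ω, ∑ S : Fin 4 → Arr m (n ^ 4), (∏ q, nu v q (S q)) * bad (H ω) v S) +
        Fintype.card Ω * (1 / 5 + 2560 / (m : ℝ) ^ 2) + 2560 * A / (m : ℝ) ^ 5 +
          64 * B / (m : ℝ) ^ 3 := by
      rw [Finset.sum_add_distrib, Finset.sum_add_distrib, Finset.sum_comm, hA, hB]
      have h5 : ∑ ω, (1 / 5 + 1280 * (2 * (∑ u, ∑ v, (K ω u v : ℝ)) / (m : ℝ) ^ 5 +
          2 / (m : ℝ) ^ 2)) = Fintype.card Ω * (1 / 5 + 2560 / (m : ℝ) ^ 2) +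
          2560 * (∑ ω, ∑ u, ∑ v, (K ω u v : ℝ)) / (m : ℝ) ^ 5 := by
        rw [Finset.mul_sum, Finset.sum_div]
        have h6 : (Fintype.card Ω : ℝ) * (1 / 5 + 2560 / (m : ℝ) ^ 2) =
            ∑ _ω : Ω, (1 / 5 + 2560 / (m : ℝ) ^ 2) := by
          rw [Finset.sum_const, Finset.card_univ, nsmul_eq_mul]
        rw [h6, ← Finset.sum_add_distrib]
        exact Finset.sum_congr rfl fun ω _ => by ring
      have h7 : ∑ ω, 64 * (∑ r, κ ω r) / (m : ℝ) ^ 3 = 64 * (∑ ω, ∑ r, κ ω r) / (m : ℝ) ^ 3 := by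
        rw [Finset.mul_sum, Finset.sum_div]
      rw [h5, h7]
      ring
    have h8 : ∑ v : Fin 3 → Bool, ∑ ω, ∑ S : Fin 4 → Arr m (n ^ 4),
        (∏ q, nu v q (S q)) * bad (H ω) v S ≤
        8 * (Fintype.card Ω * (1 / 20 + 2 * (m : ℝ) ^ 3 / (n ^ 4 : ℕ))) := by
      calc _ ≤ ∑ _v : Fin 3 → Bool, (Fintype.card Ω : ℝ) *
            (1 / 20 + 2 * (m : ℝ) ^ 3 / (n ^ 4 : ℕ)) :=
            Finset.sum_le_sum fun v _ => average hm0 hL h12 hLn H hdec v
        _ = _ := by
            rw [Finset.sum_const, Finset.card_univ]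
            simp only [Fintype.card_pi, Fintype.card_bool, Finset.prod_const, Finset.card_univ,
              Fintype.card_fin, nsmul_eq_mul]
            push_cast
            ring
    have hnm : (12 : ℝ) * m ≤ n := by exact_mod_cast h12
    have hnm2 : (n : ℝ) ≤ 12.1 * m := by
      have : (n : ℝ) ≤ 12 * m + 11 := by exact_mod_cast hn12
      linarith
    have h9 : 2 * (m : ℝ) ^ 3 / (n ^ 4 : ℕ) ≤ 1 / 10000 := by
      push_cast
      rw [div_le_iff₀ (by positivity)]
      have h10 : (m : ℝ) ^ 3 ≤ (n : ℝ) ^ 3 / 1728 := by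
        have := pow_le_pow_left₀ (by positivity) hnm 3
        linarith [this, (by ring : (12 * (m : ℝ)) ^ 3 = 1728 * (m : ℝ) ^ 3)]
      have h11 : (1600 : ℝ) ≤ n := by exact_mod_cast hbig
      have h12 : 1600 * (n : ℝ) ^ 3 ≤ (n : ℝ) ^ 4 := by
        have : (n : ℝ) ^ 4 = n * (n : ℝ) ^ 3 := by ring
        rw [this]
        exact mul_le_mul_of_nonneg_right h11 (by positivity)
      linarith [pow_pos hn0 3]
    have h10 : 2560 / (m : ℝ) ^ 2 ≤ 145 / 1000 := by
      rw [div_le_iff₀ (by positivity)]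
      nlinarith
    have h11 : (1 / 4 : ℝ) * Fintype.card Ω ≤ 2560 * A / (m : ℝ) ^ 5 + 64 * B / (m : ℝ) ^ 3 := by
      rw [h4] at h1
      have h12 : (Fintype.card Ω : ℝ) * (1 / 5 + 2560 / (m : ℝ) ^ 2) ≤
          Fintype.card Ω * (1 / 5 + 145 / 1000) :=
        mul_le_mul_of_nonneg_left (by linarith) hN.le
      have h13 : (Fintype.card Ω : ℝ) * (1 / 20 + 2 * (m : ℝ) ^ 3 / (n ^ 4 : ℕ)) ≤
          Fintype.card Ω * (1 / 20 + 1 / 10000) :=
        mul_le_mul_of_nonneg_left (by linarith) hN.le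
      linarith
    -- multiply by `m ^ 3`
    have h12' : (m : ℝ) ^ 3 * Fintype.card Ω ≤ 10240 * A / (m : ℝ) ^ 2 + 256 * B := by
      have h13 := mul_le_mul_of_nonneg_left h11 hm3.le
      have h14 : (m : ℝ) ^ 3 * (2560 * A / (m : ℝ) ^ 5 + 64 * B / (m : ℝ) ^ 3) =
          2560 * A / (m : ℝ) ^ 2 + 64 * B := by
        field_simp
      rw [h14] at h13
      have h15 : 10240 * A / (m : ℝ) ^ 2 = 4 * (2560 * A / (m : ℝ) ^ 2) := by ring
      rw [h15]
      linarith
    have h13 : (n : ℝ) ^ 3 ≤ 1772 * (m : ℝ) ^ 3 := by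
      have := pow_le_pow_left₀ hn0.le hnm2 3
      have h14 : (12.1 * (m : ℝ)) ^ 3 = 1771.561 * (m : ℝ) ^ 3 := by ring
      rw [h14] at this
      linarith
    have h14 : A / (m : ℝ) ^ 2 ≤ 147 * (A / (n : ℝ) ^ 2) := by
      have h15 : (n : ℝ) ^ 2 ≤ 147 * (m : ℝ) ^ 2 := by
        have := pow_le_pow_left₀ hn0.le hnm2 2
        have h16 : (12.1 * (m : ℝ)) ^ 2 = 146.41 * (m : ℝ) ^ 2 := by ring
        rw [h16] at this
        nlinarith [sq_nonneg (m : ℝ)]
      rw [mul_div_assoc', div_le_div_iff₀ (by positivity) (by positivity)]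
      nlinarith
    have h15 : ∑ ω, ((∑ u, ∑ v, (K ω u v : ℝ)) / (n : ℝ) ^ 2 + ∑ r, κ ω r) =
        A / (n : ℝ) ^ 2 + B := by
      rw [Finset.sum_add_distrib, ← Finset.sum_div, hA, hB]
    rw [h15, mul_div_assoc', le_div_iff₀ hN]
    have h16 : 10240 * A / (m : ℝ) ^ 2 = 10240 * (A / (m : ℝ) ^ 2) := by ring
    rw [h16] at h12'
    have h17 : 0 ≤ A / (n : ℝ) ^ 2 := by positivity
    calc (n : ℝ) ^ 3 * Fintype.card Ω ≤ 1772 * (m : ℝ) ^ 3 * Fintype.card Ω :=
          mul_le_mul_of_nonneg_right h13 hN.le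
      _ = 1772 * ((m : ℝ) ^ 3 * Fintype.card Ω) := by ring
      _ ≤ 1772 * (10240 * (147 * (A / (n : ℝ) ^ 2)) + 256 * B) := by
          refine mul_le_mul_of_nonneg_left ?_ (by norm_num)
          linarith
      _ ≤ 2 ^ 32 * (A / (n : ℝ) ^ 2 + B) := by
          nlinarith

end Pool.Agent.Helper94.DG
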