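import Pool.Agent.Helper94.DG.Lower
import Pool.Agent.Helper94.DG.Defs2
import Pool.Agent.Helper14.DG.Law1
import Pool.Agent.Helper18.DG.Law4
import Pool.Agent.Helper21.DG.Meet
import Pool.Agent.Helper21.DG.Tree
import Pool.Agent.Helper36.DG.Tail
import Pool.Agent.Helper56.DG.MeetMin

/-!
# Digests and adaptive voters: the assembly of the lower bound
-/

set_option autoImplicit false

open Finset

namespace Pool.Agent.Helper94.DG

open Pool.Agent.Helper22.ETModel Pool.Agent.Helper8.VT Pool.Agent.Helper8.UV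
open Pool.Agent.Helper53.TC5
open Pool.Agent.Helper21.DG (cancel inst_valid inst_tripartite inst_yes)
open Pool.Agent.Helper18.DG (hybrid marginal4)
open Pool.Agent.Helper14.DG (law marginal)
open Helper36.DG (one_part dens_total tail)
open Pool.Agent.Helper53.DG (touch)
open Pool.Agent.Helper56.DG (ker_nonneg few_yes dens_nonneg)
open Pool.Agent.Helper18.DG (law4)
open Pool.Agent.Helper21.DG (side_path tree_meets meet_sqrt)
open Pool.Agent.Helper56.DG (meet_min)

variable {n m L : ℕ} {ι : Type} [Fintype ι]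

/-- The cells probed on the instance with the arrays `S`. -/
def pth {d : ℕ} (t : Wts n → Tree n d) (S : Fin 4 → Arr m L) : Finset (Fin n × Fin n) :=
  path (t (inst n S).wt) (inst n S).wt

/-- `d = v + even q`. -/
def dd (v : Fin 3 → Bool) (q : Fin 4) : Fin 3 → Bool := fun s => xor (v s) (even q s)

/-- All planted triangles are good at the corner `v`. -/
def AllGood (v : Fin 3 → Bool) (a b : Fin 4 → Fin m → Fin m → Fin L → ℕ)
    (c : Fin 4 → Fin m → Fin m → Fin (2 * L) → ℕ) (h K : ℝ) (T : Fin 4 → Tri m)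
    (S : Fin 4 → Arr m L) : Prop :=
  ∀ q, Good (dd v q) (a q) (b q) (c q) h K (T q) (S q)

open Classical in
lemma pointA (h : 12 * m ≤ n) (hn : 10 * L ≤ n ^ 300) {K : Fin n → Fin n → ℕ}
    (δ : ∀ u v : Fin n, ℤ → Fin (K u v)) (st : ι → Prop) (Q : ι → Finset (Fin n × Fin n))
    (H : ι → Inst n → ℝ) (hH : ∀ r, st r → Sees (flg n) δ (Q r) (H r)) (d : ι → ℕ)
    (t : ∀ r, Wts n → Tree n (d r))
    (ht : ∀ r, ¬ st r → ∀ w w' : Wts n,
      (∀ u v : Fin n, (u : ℕ) % 3 < (v : ℕ) % 3 → δ u v (w u v) = δ u v (w' u v)) →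
      (∀ u v : Fin n, (u : ℕ) % 3 = (v : ℕ) % 3 → w u v = w' u v) → t r w = t r w')
    (htH : ∀ r, ¬ st r → ∀ w : Wts n, (⟨flg n, w⟩ : Inst n).Valid →
      H r ⟨flg n, w⟩ = (t r w).eval w)
    (GG : (Fin 3 → Bool) → Prop) (D : Fin 4 → Data m L)
    (hD : ∀ q, mass (fun i j x => (δ (vtx h 0 q i) (vtx h 1 q j) ((x : ℕ) : ℤ) : ℕ))
      (fun i j x => (δ (vtx h 1 q i) (vtx h 2 q j) ((x : ℕ) : ℤ) : ℕ))
      (fun i j x => (δ (vtx h 0 q i) (vtx h 2 q j) (-((x : ℕ) : ℤ)) : ℕ)) (D q) ≠ 0) :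
    1 ≤ ∑ v, bad H v (cube v D) +
      ∑ v : Fin 3 → Bool, (if sgn v ≠ 1 ∧ ¬ GG v then (1 : ℝ) else 0) +
      ∑ r, (if st r ∧ Touch h (Q r) (fun q => (D q).2.1) then (1 : ℝ) else 0) +
      ∑ r, ∑ v : Fin 3 → Bool, (if ¬ st r ∧ sgn v ≠ 1 ∧ GG v ∧
        Touch h (pth (t r) (cube v D)) (fun q => (D q).2.1) then (1 : ℝ) else 0) := by
  have n1 : (0 : ℝ) ≤ ∑ v, bad H v (cube v D) := Finset.sum_nonneg fun v _ => bad_nonneg H v _
  have n2 : (0 : ℝ) ≤ ∑ v : Fin 3 → Bool, (if sgn v ≠ 1 ∧ ¬ GG v then (1 : ℝ) else 0) :=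
    Finset.sum_nonneg fun v _ => by split_ifs <;> norm_num
  have n3 : (0 : ℝ) ≤ ∑ r, (if st r ∧ Touch h (Q r) (fun q => (D q).2.1) then (1 : ℝ) else 0) :=
    Finset.sum_nonneg fun r _ => by split_ifs <;> norm_num
  have n4 : (0 : ℝ) ≤ ∑ r, ∑ v : Fin 3 → Bool, (if ¬ st r ∧ sgn v ≠ 1 ∧ GG v ∧
        Touch h (pth (t r) (cube v D)) (fun q => (D q).2.1) then (1 : ℝ) else 0) :=
    Finset.sum_nonneg fun r _ => Finset.sum_nonneg fun v _ => by split_ifs <;> norm_num
  by_cases hb : ∃ v, bad H v (cube v D) ≠ 0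
  · obtain ⟨v, hv⟩ := hb
    have h1 : bad H v (cube v D) = 1 := by
      unfold bad at hv ⊢
      split_ifs at hv ⊢ with h1
      · exact absurd rfl hv
      · rfl
    have h2 : bad H v (cube v D) ≤ ∑ v, bad H v (cube v D) :=
      Finset.single_le_sum (f := fun v => bad H v (cube v D))
        (fun v _ => bad_nonneg H v _) (Finset.mem_univ v)
    linarith
  · push Not at hb
    have hacc : ∀ v, (0 < ∑ r, H r (inst n (cube v D)) ↔ sgn v = 1) := by
      intro v
      by_contra hc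
      have := hb v
      unfold bad at this
      rw [if_neg hc] at this
      exact one_ne_zero this
    have hpos : 0 < ∑ v : Fin 3 → Bool, sgn v * ∑ r, H r (inst n (cube v D)) := by
      refine Finset.sum_pos' (fun v _ => ?_) ⟨fun _ => false, Finset.mem_univ _, ?_⟩
      · rcases sgn_cases v with hv | hv
        · rw [hv, one_mul]
          exact ((hacc v).2 hv).le
        · have : ¬ 0 < ∑ r, H r (inst n (cube v D)) := by
            intro hc
            have := (hacc v).1 hc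
            rw [hv] at this
            norm_num at this
          rw [hv]
          linarith
      · rw [sgn_zero, one_mul]
        exact (hacc _).2 sgn_zero
    have hsw : ∑ v : Fin 3 → Bool, sgn v * ∑ r, H r (inst n (cube v D)) =
        ∑ r, ∑ v : Fin 3 → Bool, sgn v * H r (inst n (cube v D)) := by
      rw [Finset.sum_comm]
      exact Finset.sum_congr rfl fun v _ => Finset.mul_sum _ _ _
    rw [hsw] at hpos
    obtain ⟨r, -, hr⟩ : ∃ r ∈ (Finset.univ : Finset ι),
        ∑ v : Fin 3 → Bool, sgn v * H r (inst n (cube v D)) ≠ 0 := by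
      by_contra hc
      push Not at hc
      rw [Finset.sum_eq_zero hc] at hpos
      exact lt_irrefl _ hpos
    by_cases hst : st r
    · have htt : Touch h (Q r) (fun q => (D q).2.1) := by
        by_contra hc
        refine hr (cancel h hn δ (Q r) (H r) (hH r hst) D hD ?_)
        unfold Touch at hc
        rw [not_and_or, not_and_or] at hc
        push Not at hc
        exact hc
      have h2 : (1 : ℝ) ≤
          ∑ r, (if st r ∧ Touch h (Q r) (fun q => (D q).2.1) then (1 : ℝ) else 0) := by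
        have h3 := Finset.single_le_sum
          (f := fun r => (if st r ∧ Touch h (Q r) (fun q => (D q).2.1) then (1 : ℝ) else 0))
          (fun r _ => by split_ifs <;> norm_num) (Finset.mem_univ r)
        simp only [if_pos (And.intro hst htt)] at h3
        exact h3
      linarith
    · obtain ⟨v, hv1, hv2⟩ := tree_meets h hn δ (H r) (t r) (ht r hst) (htH r hst) D hD hr
      by_cases hG : GG v
      · have hcond : ¬ st r ∧ sgn v ≠ 1 ∧ GG v ∧
            Touch h (pth (t r) (cube v D)) (fun q => (D q).2.1) := ⟨hst, hv1, hG, hv2⟩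
        have h2 : (1 : ℝ) ≤ ∑ v : Fin 3 → Bool, (if ¬ st r ∧ sgn v ≠ 1 ∧ GG v ∧
            Touch h (pth (t r) (cube v D)) (fun q => (D q).2.1) then (1 : ℝ) else 0) := by
          have h3 := Finset.single_le_sum
            (f := fun v : Fin 3 → Bool => (if ¬ st r ∧ sgn v ≠ 1 ∧ GG v ∧
              Touch h (pth (t r) (cube v D)) (fun q => (D q).2.1) then (1 : ℝ) else 0))
            (fun v _ => by split_ifs <;> norm_num) (Finset.mem_univ v)
          simp only [if_pos hcond] at h3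
          exact h3
        have h4 : ∑ v : Fin 3 → Bool, (if ¬ st r ∧ sgn v ≠ 1 ∧ GG v ∧
            Touch h (pth (t r) (cube v D)) (fun q => (D q).2.1) then (1 : ℝ) else 0) ≤
            ∑ r, ∑ v : Fin 3 → Bool, (if ¬ st r ∧ sgn v ≠ 1 ∧ GG v ∧
            Touch h (pth (t r) (cube v D)) (fun q => (D q).2.1) then (1 : ℝ) else 0) :=
          Finset.single_le_sum (f := fun r => ∑ v : Fin 3 → Bool, (if ¬ st r ∧ sgn v ≠ 1 ∧ GG v ∧
            Touch h (pth (t r) (cube v D)) (fun q => (D q).2.1) then (1 : ℝ) else 0))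
            (fun r _ => Finset.sum_nonneg fun v _ => by split_ifs <;> norm_num)
            (Finset.mem_univ r)
        linarith
      · have h2 : (1 : ℝ) ≤
            ∑ v : Fin 3 → Bool, (if sgn v ≠ 1 ∧ ¬ GG v then (1 : ℝ) else 0) := by
          have h3 := Finset.single_le_sum
            (f := fun v : Fin 3 → Bool => (if sgn v ≠ 1 ∧ ¬ GG v then (1 : ℝ) else 0))
            (fun v _ => by split_ifs <;> norm_num) (Finset.mem_univ v)
          simp only [if_pos (And.intro hv1 hG)] at h3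
          exact h3
        linarith

/-! ### The probability that a triangle is not good -/

lemma densT_nonneg (d : Fin 3 → Bool) (a b : Fin m → Fin m → Fin L → ℕ)
    (c : Fin m → Fin m → Fin (2 * L) → ℕ) (T : Tri m) (S : Arr m L) :
    0 ≤ densT d a b c T S := dens_nonneg _ _ _ _ _ _ _

lemma exists_dd {v : Fin 3 → Bool} (hv : sgn v ≠ 1) (q : Fin 4) : ∃ s, dd v q s = true := by
  by_contra hc
  push Not at hc
  refine hv ?_
  have : v = even q := by
    funext s
    have := hc s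
    unfold dd at this
    simpa using this
  rw [this]
  exact sgn_even q

/-- Sums of products over the four parts. -/
lemma sum_prod4 {α : Type} [Fintype α] [DecidableEq α] (f : Fin 4 → α → ℝ) :
    ∑ D : Fin 4 → α, ∏ q, f q (D q) = ∏ q, ∑ x, f q x := by
  have h0 := Finset.prod_univ_sum (fun _ : Fin 4 => (Finset.univ : Finset α)) f
  rw [Fintype.piFinset_univ] at h0
  exact h0.symm

open Classical in
lemma not_good (hm : 0 < m) (hL : 0 < L) (a b : Fin 4 → Fin m → Fin m → Fin L → ℕ)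
    (c : Fin 4 → Fin m → Fin m → Fin (2 * L) → ℕ) (K : ℕ) (hK : 1 ≤ K)
    (ha : ∀ q i j x, a q i j x < K) (hb : ∀ q i j x, b q i j x < K)
    (hc : ∀ q i j x, c q i j x < K) {v : Fin 3 → Bool} (hv : sgn v ≠ 1) (h : ℝ) (hh : 0 < h) :
    ∑ D : Fin 4 → Data m L, (∏ q, mass (a q) (b q) (c q) (D q)) *
      (if AllGood v a b c h K (fun q => (D q).2.1) (cube v D) then 0 else 1) ≤ 96 / h := by
  have hcard := card_arr_pos (m := m) hL
  have hX : (0 : ℝ) < Fintype.card (Arr m L) * (m : ℝ) ^ 3 := by positivity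
  have h1 := law4 hL a b c (dd v)
    (fun T S => if AllGood v a b c h K T S then (0 : ℝ) else 1)
  have h2 : ∑ D : Fin 4 → Data m L, (∏ q, mass (a q) (b q) (c q) (D q)) *
      (if AllGood v a b c h K (fun q => (D q).2.1) (cube v D) then 0 else 1) =
      (∑ T : Fin 4 → Tri m, ∑ S : Fin 4 → Arr m L,
        (∏ q, densT (dd v q) (a q) (b q) (c q) (T q) (S q)) *
          (if AllGood v a b c h K T S then (0 : ℝ) else 1)) /
        (Fintype.card (Arr m L) * (m : ℝ) ^ 3) ^ 4 := h1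
  rw [h2, div_le_iff₀ (by positivity)]
  -- the union bound over the parts
  have h3 : ∀ (T : Fin 4 → Tri m) (S : Fin 4 → Arr m L),
      (∏ q, densT (dd v q) (a q) (b q) (c q) (T q) (S q)) *
        (if AllGood v a b c h K T S then (0 : ℝ) else 1) ≤
      ∑ q0, ∏ q, (densT (dd v q) (a q) (b q) (c q) (T q) (S q) *
        (if q = q0 then (if Good (dd v q) (a q) (b q) (c q) h K (T q) (S q) then (0 : ℝ) else 1)
          else 1)) := by
    intro T S
    have hnn : ∀ q0 : Fin 4, 0 ≤ ∏ q, (densT (dd v q) (a q) (b q) (c q) (T q) (S q) *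
        (if q = q0 then (if Good (dd v q) (a q) (b q) (c q) h K (T q) (S q) then (0 : ℝ) else 1)
          else 1)) := fun q0 => Finset.prod_nonneg fun q _ =>
      mul_nonneg (densT_nonneg _ _ _ _ _ _) (by split_ifs <;> norm_num)
    split_ifs with hg
    · rw [mul_zero]
      exact Finset.sum_nonneg fun q0 _ => hnn q0
    · unfold AllGood at hg
      push Not at hg
      obtain ⟨q0, hq0⟩ := hg
      refine le_trans (le_of_eq ?_) (Finset.single_le_sum (fun q0 _ => hnn q0)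
        (Finset.mem_univ q0))
      rw [mul_one]
      refine Finset.prod_congr rfl fun q _ => ?_
      split_ifs with h4 h5
      · subst h4
        exact absurd h5 hq0
      · rw [mul_one]
      · rw [mul_one]
  have h4 : ∑ T : Fin 4 → Tri m, ∑ S : Fin 4 → Arr m L,
        (∏ q, densT (dd v q) (a q) (b q) (c q) (T q) (S q)) *
          (if AllGood v a b c h K T S then (0 : ℝ) else 1) ≤
      ∑ q0 : Fin 4, ∑ T : Fin 4 → Tri m, ∑ S : Fin 4 → Arr m L,
        ∏ q, (densT (dd v q) (a q) (b q) (c q) (T q) (S q) *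
        (if q = q0 then (if Good (dd v q) (a q) (b q) (c q) h K (T q) (S q) then (0 : ℝ) else 1)
          else 1)) := by
    calc _ ≤ ∑ T : Fin 4 → Tri m, ∑ S : Fin 4 → Arr m L, ∑ q0,
        ∏ q, (densT (dd v q) (a q) (b q) (c q) (T q) (S q) *
        (if q = q0 then (if Good (dd v q) (a q) (b q) (c q) h K (T q) (S q) then (0 : ℝ) else 1)
          else 1)) := Finset.sum_le_sum fun T _ => Finset.sum_le_sum fun S _ => h3 T S
      _ = _ := by
        simp only [Finset.sum_comm (s := (Finset.univ : Finset (Fin 4 → Arr m L)))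
          (t := (Finset.univ : Finset (Fin 4)))]
        rw [Finset.sum_comm]
  have h5 : ∀ q0 : Fin 4, ∑ T : Fin 4 → Tri m, ∑ S : Fin 4 → Arr m L,
        ∏ q, (densT (dd v q) (a q) (b q) (c q) (T q) (S q) *
        (if q = q0 then (if Good (dd v q) (a q) (b q) (c q) h K (T q) (S q) then (0 : ℝ) else 1)
          else 1)) ≤ 24 / h * (Fintype.card (Arr m L) * (m : ℝ) ^ 3) ^ 4 := by
    intro q0
    have h6 : ∑ T : Fin 4 → Tri m, ∑ S : Fin 4 → Arr m L,
        ∏ q, (densT (dd v q) (a q) (b q) (c q) (T q) (S q) *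
        (if q = q0 then (if Good (dd v q) (a q) (b q) (c q) h K (T q) (S q) then (0 : ℝ) else 1)
          else 1)) = ∏ q, ∑ T : Tri m, ∑ S : Arr m L,
          (densT (dd v q) (a q) (b q) (c q) T S *
        (if q = q0 then (if Good (dd v q) (a q) (b q) (c q) h K T S then (0 : ℝ) else 1)
          else 1)) := by
      rw [← sum_prod4]
      refine Finset.sum_congr rfl fun T _ => ?_
      rw [← sum_prod4 (fun q S => densT (dd v q) (a q) (b q) (c q) (T q) S *
        (if q = q0 then (if Good (dd v q) (a q) (b q) (c q) h K (T q) S then (0 : ℝ) else 1)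
          else 1))]
    rw [h6]
    have h7 : ∀ q, ∑ T : Tri m, ∑ S : Arr m L, (densT (dd v q) (a q) (b q) (c q) T S *
        (if q = q0 then (if Good (dd v q) (a q) (b q) (c q) h K T S then (0 : ℝ) else 1)
          else 1)) ≤ (if q = q0 then 24 / h else 1) *
            (Fintype.card (Arr m L) * (m : ℝ) ^ 3) := by
      intro q
      by_cases hq : q = q0
      · simp only [if_pos hq]
        exact tail hm hL (a q) (b q) (c q) K hK (ha q) (hb q) (hc q) (dd v q)
          (exists_dd hv q) h hh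
      · simp only [if_neg hq, mul_one, one_mul]
        exact (dens_total hL (a q) (b q) (c q) (dd v q)).le
    calc _ ≤ ∏ q : Fin 4, ((if q = q0 then 24 / h else 1) *
            (Fintype.card (Arr m L) * (m : ℝ) ^ 3)) :=
          Finset.prod_le_prod (fun q _ => Finset.sum_nonneg fun T _ => Finset.sum_nonneg fun S _ =>
            mul_nonneg (densT_nonneg _ _ _ _ _ _) (by split_ifs <;> norm_num)) fun q _ => h7 q
      _ = _ := by
          rw [Finset.prod_mul_distrib, Finset.prod_ite_eq' Finset.univ q0 (fun _ => 24 / h)]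
          simp only [Finset.mem_univ, if_true, Finset.prod_const, Finset.card_univ,
            Fintype.card_fin]
  calc _ ≤ _ := h4
    _ ≤ ∑ _q0 : Fin 4, 24 / h * (Fintype.card (Arr m L) * (m : ℝ) ^ 3) ^ 4 :=
        Finset.sum_le_sum fun q0 _ => h5 q0
    _ = 96 / h * (Fintype.card (Arr m L) * (m : ℝ) ^ 3) ^ 4 := by
        rw [Finset.sum_const, Finset.card_univ, Fintype.card_fin, nsmul_eq_mul]
        push_cast
        ring

/-! ### One tree at one odd corner -/

open Classical in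
lemma tree_bound (hm : 0 < m) (hL : 0 < L) (hmn : 12 * m ≤ n)
    (la lb : Fin 4 → Fin m → Fin m → Fin L → ℕ) (lc : Fin 4 → Fin m → Fin m → Fin (2 * L) → ℕ)
    (K : ℕ) (hK : 1 ≤ K) {d : ℕ} (t : Wts n → Tree n d) (a b c : ℕ)
    (ha : ∀ S : Fin 4 → Arr m L, side 0 1 (pth t S) ≤ a)
    (hb : ∀ S : Fin 4 → Arr m L, side 1 2 (pth t S) ≤ b)
    (hc : ∀ S : Fin 4 → Arr m L, side 0 2 (pth t S) ≤ c) (v : Fin 3 → Bool) (h : ℝ)
    (hh : 1 ≤ h) :
    ∑ D : Fin 4 → Data m L, (∏ q, mass (la q) (lb q) (lc q) (D q)) *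
      (if AllGood v la lb lc h K (fun q => (D q).2.1) (cube v D) ∧
        Touch hmn (pth t (cube v D)) (fun q => (D q).2.1) then 1 else 0) ≤
      2 ^ 13 * h ^ 3 * triA n K a b c / (m : ℝ) ^ 3 := by
  have hcard := card_arr_pos (m := m) hL
  have hmr : (0 : ℝ) < m := by exact_mod_cast hm
  have hm3 : (0 : ℝ) < (m : ℝ) ^ 3 := by positivity
  have hKr : (1 : ℝ) ≤ K := by exact_mod_cast hK
  have hX : (0 : ℝ) < Fintype.card (Arr m L) * (m : ℝ) ^ 3 := by positivity
  have h1 := law4 hL la lb lc (dd v)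
    (fun T S => if AllGood v la lb lc h K T S ∧ Touch hmn (pth t S) T then (1 : ℝ) else 0)
  have h2 : ∑ D : Fin 4 → Data m L, (∏ q, mass (la q) (lb q) (lc q) (D q)) *
      (if AllGood v la lb lc h K (fun q => (D q).2.1) (cube v D) ∧
        Touch hmn (pth t (cube v D)) (fun q => (D q).2.1) then 1 else 0) =
      (∑ T : Fin 4 → Tri m, ∑ S : Fin 4 → Arr m L,
        (∏ q, densT (dd v q) (la q) (lb q) (lc q) (T q) (S q)) *
          (if AllGood v la lb lc h K T S ∧ Touch hmn (pth t S) T then (1 : ℝ) else 0)) /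
        (Fintype.card (Arr m L) * (m : ℝ) ^ 3) ^ 4 := h1
  -- the weights
  obtain ⟨g, hg⟩ : ∃ g : Fin 4 → Arr m L → Tri m → ℝ, g = fun q S T =>
      (if Good (dd v q) (la q) (lb q) (lc q) h K T S then
        densT (dd v q) (la q) (lb q) (lc q) T S / (m : ℝ) ^ 3 else 0) := ⟨_, rfl⟩
  have hg0 : ∀ q S T, 0 ≤ g q S T := by
    intro q S T
    rw [hg]
    simp only
    split_ifs
    · exact div_nonneg (densT_nonneg _ _ _ _ _ _) hm3.le
    · exact le_rfl
  have hg1 : ∀ q S T, g q S T ≤ densT (dd v q) (la q) (lb q) (lc q) T S / (m : ℝ) ^ 3 := by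
    intro q S T
    rw [hg]
    simp only
    split_ifs
    · exact le_rfl
    · exact div_nonneg (densT_nonneg _ _ _ _ _ _) hm3.le
  have hgK : ∀ q S T, g q S T ≤ h * K / (m : ℝ) ^ 3 := by
    intro q S T
    rw [hg]
    simp only
    split_ifs with hG
    · exact div_le_div_of_nonneg_right hG.1 hm3.le
    · positivity
  have hτ : 0 ≤ h * (m + K) / (m : ℝ) ^ 3 := by positivity
  have hg01 : ∀ q S i j, ∑ k, g q S (i, j, k) ≤ h * (m + K) / (m : ℝ) ^ 3 := by
    intro q S i j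
    by_cases hex : ∃ k, Good (dd v q) (la q) (lb q) (lc q) h K (i, j, k) S
    · obtain ⟨k, hk⟩ := hex
      calc ∑ k, g q S (i, j, k)
          ≤ ∑ k, densT (dd v q) (la q) (lb q) (lc q) (i, j, k) S / (m : ℝ) ^ 3 :=
            Finset.sum_le_sum fun k _ => hg1 _ _ _
        _ ≤ _ := by
            rw [← Finset.sum_div]
            exact div_le_div_of_nonneg_right hk.2.1 hm3.le
    · push Not at hex
      refine (Finset.sum_eq_zero fun k _ => ?_).le.trans hτ
      rw [hg]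
      simp only [if_neg (hex k)]
  have hg12 : ∀ q S j k, ∑ i, g q S (i, j, k) ≤ h * (m + K) / (m : ℝ) ^ 3 := by
    intro q S j k
    by_cases hex : ∃ i, Good (dd v q) (la q) (lb q) (lc q) h K (i, j, k) S
    · obtain ⟨i, hi⟩ := hex
      calc ∑ i, g q S (i, j, k)
          ≤ ∑ i, densT (dd v q) (la q) (lb q) (lc q) (i, j, k) S / (m : ℝ) ^ 3 :=
            Finset.sum_le_sum fun i _ => hg1 _ _ _
        _ ≤ _ := by
            rw [← Finset.sum_div]
            exact div_le_div_of_nonneg_right hi.2.2.1 hm3.le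
    · push Not at hex
      refine (Finset.sum_eq_zero fun i _ => ?_).le.trans hτ
      rw [hg]
      simp only [if_neg (hex i)]
  have hg02 : ∀ q S i k, ∑ j, g q S (i, j, k) ≤ h * (m + K) / (m : ℝ) ^ 3 := by
    intro q S i k
    by_cases hex : ∃ j, Good (dd v q) (la q) (lb q) (lc q) h K (i, j, k) S
    · obtain ⟨j, hj⟩ := hex
      calc ∑ j, g q S (i, j, k)
          ≤ ∑ j, densT (dd v q) (la q) (lb q) (lc q) (i, j, k) S / (m : ℝ) ^ 3 :=
            Finset.sum_le_sum fun j _ => hg1 _ _ _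
        _ ≤ _ := by
            rw [← Finset.sum_div]
            exact div_le_div_of_nonneg_right hj.2.2.2 hm3.le
    · push Not at hex
      refine (Finset.sum_eq_zero fun j _ => ?_).le.trans hτ
      rw [hg]
      simp only [if_neg (hex j)]
  -- for fixed arrays
  have h3 : ∀ S : Fin 4 → Arr m L, ∑ T : Fin 4 → Tri m,
      (∏ q, densT (dd v q) (la q) (lb q) (lc q) (T q) (S q)) *
        (if AllGood v la lb lc h K T S ∧ Touch hmn (pth t S) T then (1 : ℝ) else 0) ≤
      ((m : ℝ) ^ 3) ^ 4 * (512 * h ^ 3 * triA n K a b c / (m : ℝ) ^ 3 *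
        ∏ q, (1 + ∑ T, g q (S q) T)) := by
    intro S
    have h4 : ∀ T : Fin 4 → Tri m, (∏ q, densT (dd v q) (la q) (lb q) (lc q) (T q) (S q)) *
        (if AllGood v la lb lc h K T S ∧ Touch hmn (pth t S) T then (1 : ℝ) else 0) =
        ((m : ℝ) ^ 3) ^ 4 * ((∏ q, g q (S q) (T q)) *
          (if Meets (fun q i j => Has (pth t S) (vtx hmn 0 q i) (vtx hmn 1 q j))
            (fun q i j => Has (pth t S) (vtx hmn 1 q i) (vtx hmn 2 q j))
            (fun q i j => Has (pth t S) (vtx hmn 0 q i) (vtx hmn 2 q j)) T then 1 else 0)) := by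
      intro T
      by_cases hA : AllGood v la lb lc h K T S
      · have h5 : ∏ q, g q (S q) (T q) =
            (∏ q, densT (dd v q) (la q) (lb q) (lc q) (T q) (S q)) / ((m : ℝ) ^ 3) ^ 4 := by
          have h6 : ∀ q, g q (S q) (T q) =
              densT (dd v q) (la q) (lb q) (lc q) (T q) (S q) / (m : ℝ) ^ 3 := by
            intro q
            rw [hg]
            simp only [if_pos (hA q)]
          simp only [h6, Finset.prod_div_distrib, Finset.prod_const, Finset.card_univ,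
            Fintype.card_fin]
        have hM : Meets (fun q i j => Has (pth t S) (vtx hmn 0 q i) (vtx hmn 1 q j))
            (fun q i j => Has (pth t S) (vtx hmn 1 q i) (vtx hmn 2 q j))
            (fun q i j => Has (pth t S) (vtx hmn 0 q i) (vtx hmn 2 q j)) T ↔
            Touch hmn (pth t S) T := Iff.rfl
        by_cases hB : Touch hmn (pth t S) T
        · rw [if_pos ⟨hA, hB⟩, if_pos (hM.2 hB), h5]
          field_simp
        · rw [if_neg (fun hc => hB hc.2), if_neg (fun hc => hB (hM.1 hc))]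
          ring
      · rw [if_neg (fun hc => hA hc.1), mul_zero]
        unfold AllGood at hA
        push Not at hA
        obtain ⟨q, hq⟩ := hA
        have h6 : ∏ q, g q (S q) (T q) = 0 := by
          refine Finset.prod_eq_zero (Finset.mem_univ q) ?_
          rw [hg]
          simp only [if_neg hq]
        rw [h6]
        ring
    simp only [h4]
    rw [← Finset.mul_sum]
    refine mul_le_mul_of_nonneg_left ?_ (by positivity)
    have hP : 0 ≤ ∏ q, (1 + ∑ T, g q (S q) T) := Finset.prod_nonneg fun q _ => by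
      have : 0 ≤ ∑ T, g q (S q) T := Finset.sum_nonneg fun T _ => hg0 _ _ _
      linarith
    have h7 := meet_sqrt hm (fun q T => g q (S q) T) (fun q => ∑ T, g q (S q) T) h K hh hKr
      (fun q T => hg0 _ _ _) (fun q => le_rfl) (fun q T => hgK _ _ _)
      (fun q i j => hg01 _ _ _ _) (fun q i j => hg12 _ _ _ _) (fun q i j => hg02 _ _ _ _)
      (fun q i j => Has (pth t S) (vtx hmn 0 q i) (vtx hmn 1 q j))
      (fun q i j => Has (pth t S) (vtx hmn 1 q i) (vtx hmn 2 q j))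
      (fun q i j => Has (pth t S) (vtx hmn 0 q i) (vtx hmn 2 q j)) a b c
      (fun q => (side_le hmn (pth t S) 0 1 q).trans (ha S))
      (fun q => (side_le hmn (pth t S) 1 2 q).trans (hb S))
      (fun q => (side_le hmn (pth t S) 0 2 q).trans (hc S))
    have h8 := meet_min hm (fun q T => g q (S q) T) (fun q => ∑ T, g q (S q) T)
      (h * (m + K) / (m : ℝ) ^ 3)
      (fun q T => hg0 _ _ _) (fun q => le_rfl)
      (fun q i j => hg01 _ _ _ _) (fun q i j => hg12 _ _ _ _) (fun q i j => hg02 _ _ _ _)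
      (fun q i j => Has (pth t S) (vtx hmn 0 q i) (vtx hmn 1 q j))
      (fun q i j => Has (pth t S) (vtx hmn 1 q i) (vtx hmn 2 q j))
      (fun q i j => Has (pth t S) (vtx hmn 0 q i) (vtx hmn 2 q j)) a b c
      (fun q => (side_le hmn (pth t S) 0 1 q).trans (ha S))
      (fun q => (side_le hmn (pth t S) 1 2 q).trans (hb S))
      (fun q => (side_le hmn (pth t S) 0 2 q).trans (hc S))
    unfold triA
    rcases min_choice ((K : ℝ) * Real.sqrt (a * b * c))
      (((n : ℝ) + K) * min (a : ℝ) (min (b : ℝ) (c : ℝ))) with h9 | h9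
    · rw [h9]
      refine h7.trans (le_of_eq ?_)
      ring
    · rw [h9]
      refine h8.trans ?_
      refine mul_le_mul_of_nonneg_right ?_ hP
      have h10 : (0 : ℝ) ≤ min (a : ℝ) (min (b : ℝ) (c : ℝ)) := by positivity
      have h11 : (m : ℝ) ≤ n := by
        have : m ≤ n := by omega
        exact_mod_cast this
      have hp : 0 ≤ h := by linarith
      have h12 : h ≤ h ^ 3 := by
        have h20 : 0 ≤ h * (h - 1) * (h + 1) :=
          mul_nonneg (mul_nonneg hp (by linarith)) (by linarith)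
        nlinarith
      have h13 : 4 * (h * (m + K) / (m : ℝ) ^ 3) * min (a : ℝ) (min (b : ℝ) (c : ℝ)) =
          (4 * h * (m + K) * min (a : ℝ) (min (b : ℝ) (c : ℝ))) / (m : ℝ) ^ 3 := by ring
      rw [h13]
      refine div_le_div_of_nonneg_right ?_ hm3.le
      have h14 : 4 * h * ((m : ℝ) + K) ≤ 512 * h ^ 3 * (n + K) := by
        have h15 : 0 ≤ h := by linarith
        have h16 : h * ((m : ℝ) + K) ≤ h ^ 3 * (n + K) :=
          mul_le_mul h12 (by linarith) (by positivity) (by positivity)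
        have h17 : 0 ≤ h ^ 3 * ((n : ℝ) + K) := by positivity
        nlinarith
      calc 4 * h * (m + K) * min (a : ℝ) (min (b : ℝ) (c : ℝ))
          ≤ 512 * h ^ 3 * (n + K) * min (a : ℝ) (min (b : ℝ) (c : ℝ)) :=
            mul_le_mul_of_nonneg_right h14 h10
        _ = _ := by ring
  -- integration over the arrays
  have hF : ∀ q, ∑ S : Arr m L, (1 + ∑ T, g q S T) ≤ 2 * (Fintype.card (Arr m L) : ℝ) := by
    intro q
    rw [Finset.sum_add_distrib]
    have h4 : ∑ S : Arr m L, ∑ T, g q S T ≤ (Fintype.card (Arr m L) : ℝ) := by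
      calc ∑ S : Arr m L, ∑ T, g q S T
          ≤ ∑ S : Arr m L, ∑ T, densT (dd v q) (la q) (lb q) (lc q) T S / (m : ℝ) ^ 3 :=
            Finset.sum_le_sum fun S _ => Finset.sum_le_sum fun T _ => hg1 _ _ _
        _ = (∑ T, ∑ S : Arr m L, densT (dd v q) (la q) (lb q) (lc q) T S) / (m : ℝ) ^ 3 := by
            rw [Finset.sum_comm, Finset.sum_div]
            exact Finset.sum_congr rfl fun T _ => (Finset.sum_div _ _ _).symm
        _ = _ := by
            rw [dens_total hL]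
            field_simp
    have h5 : ∑ _S : Arr m L, (1 : ℝ) = Fintype.card (Arr m L) := by simp
    rw [h5]
    linarith
  have hFF : ∑ S : Fin 4 → Arr m L, ∏ q, (1 + ∑ T, g q (S q) T) ≤
      16 * (Fintype.card (Arr m L) : ℝ) ^ 4 := by
    rw [sum_prod4 (fun q S => 1 + ∑ T, g q S T)]
    calc _ ≤ ∏ _q : Fin 4, 2 * (Fintype.card (Arr m L) : ℝ) :=
          Finset.prod_le_prod (fun q _ => Finset.sum_nonneg fun S _ => by
            have : 0 ≤ ∑ T, g q S T := Finset.sum_nonneg fun T _ => hg0 _ _ _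
            linarith) fun q _ => hF q
      _ = _ := by
          simp only [Finset.prod_const, Finset.card_univ, Fintype.card_fin]
          ring
  have htri : 0 ≤ triA n K a b c := by unfold triA; positivity
  rw [h2, div_le_iff₀ (by positivity), Finset.sum_comm]
  calc _ ≤ ∑ S : Fin 4 → Arr m L, ((m : ℝ) ^ 3) ^ 4 *
        (512 * h ^ 3 * triA n K a b c / (m : ℝ) ^ 3 * ∏ q, (1 + ∑ T, g q (S q) T)) :=
        Finset.sum_le_sum fun S _ => h3 S
    _ = ((m : ℝ) ^ 3) ^ 4 * (512 * h ^ 3 * triA n K a b c / (m : ℝ) ^ 3) *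
        ∑ S : Fin 4 → Arr m L, ∏ q, (1 + ∑ T, g q (S q) T) := by
        rw [Finset.mul_sum]
        exact Finset.sum_congr rfl fun S _ => by ring
    _ ≤ ((m : ℝ) ^ 3) ^ 4 * (512 * h ^ 3 * triA n K a b c / (m : ℝ) ^ 3) *
        (16 * (Fintype.card (Arr m L) : ℝ) ^ 4) :=
        mul_le_mul_of_nonneg_left hFF (by positivity)
    _ = _ := by ring

/-! ### One circuit -/

open Classical in
/-- The expected number of bad corners `v`, compared with the reference law. -/
lemma corner_le (hm : 0 < m) (hL : 0 < L) (h : 12 * m ≤ n)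
    {K : Fin n → Fin n → ℕ} (δ : ∀ u v : Fin n, ℤ → Fin (K u v)) (H : ι → Inst n → ℝ)
    (v : Fin 3 → Bool) :
    ∑ D : Fin 4 → Data m L,
      (∏ q, mass (fun i j x => (δ (vtx h 0 q i) (vtx h 1 q j) ((x : ℕ) : ℤ) : ℕ))
      (fun i j x => (δ (vtx h 1 q i) (vtx h 2 q j) ((x : ℕ) : ℤ) : ℕ))
      (fun i j x => (δ (vtx h 0 q i) (vtx h 2 q j) (-((x : ℕ) : ℤ)) : ℕ)) (D q)) *
      bad H v (cube v D) ≤ ∑ S : Fin 4 → Arr m L, (∏ q, nu v q (S q)) * bad H v S +
        4 * eta m (∑ u, ∑ v, (K u v : ℝ)) := by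
  have h4 := hybrid 4 (fun q => mass
      (fun i j (x : Fin L) => (δ (vtx h 0 q i) (vtx h 1 q j) ((x : ℕ) : ℤ) : ℕ))
      (fun i j x => (δ (vtx h 1 q i) (vtx h 2 q j) ((x : ℕ) : ℤ) : ℕ))
      (fun i j x => (δ (vtx h 0 q i) (vtx h 2 q j) (-((x : ℕ) : ℤ)) : ℕ))) (fun q => nu v q)
    (fun q => corner (fun s => xor (v s) (even q s)))
    (fun _ => eta m (∑ u, ∑ v, (K u v : ℝ)))
    (fun q D => mass_nonneg _ _ _ D) (fun q => sum_mass hm hL _ _ _)
    (fun q S => nu_nonneg v q S) (fun q => sum_nu hm hL v q) ?_ (bad H v) (bad_nonneg H v)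
    (bad_le_one H v)
  · simp only [Finset.sum_const, Finset.card_univ, Fintype.card_fin, nsmul_eq_mul] at h4
    push_cast at h4
    exact h4
  · intro q Ψ hΨ0 hΨ1
    by_cases hv : v = even q
    · have h5 := law hm hL
        (fun i j (x : Fin L) => (δ (vtx h 0 q i) (vtx h 1 q j) ((x : ℕ) : ℤ) : ℕ))
        (fun i j x => (δ (vtx h 1 q i) (vtx h 2 q j) ((x : ℕ) : ℤ) : ℕ))
        (fun i j x => (δ (vtx h 0 q i) (vtx h 2 q j) (-((x : ℕ) : ℤ)) : ℕ)) (fun _ => false) Ψ
      have h6 : (fun s => xor (v s) (even q s)) = fun _ => false := by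
        funext s; rw [hv]; simp
      simp only [h6, h5, densF_zero]
      have h7 : ∑ y : Arr m L, nu v q y * Ψ y =
          (∑ S : Arr m L, pl S * Ψ S) / Fintype.card (Arr m L) := by
        unfold nu
        simp only [if_pos hv]
        rw [Finset.sum_div]
        exact Finset.sum_congr rfl fun S _ => by ring
      rw [h7]
      linarith [eta_nonneg m (∑ u, ∑ v, (K u v : ℝ))]
    · have h6 : ∃ s, (fun s => xor (v s) (even q s)) s = true := by
        by_contra hc
        push Not at hc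
        refine hv (funext fun s => ?_)
        have := hc s
        simpa using this
      have h5 := one_part hm hL
        (fun i j (x : Fin L) => (δ (vtx h 0 q i) (vtx h 1 q j) ((x : ℕ) : ℤ) : ℕ))
        (fun i j x => (δ (vtx h 1 q i) (vtx h 2 q j) ((x : ℕ) : ℤ) : ℕ))
        (fun i j x => (δ (vtx h 0 q i) (vtx h 2 q j) (-((x : ℕ) : ℤ)) : ℕ))
        (fun i j => K (vtx h 0 q i) (vtx h 1 q j)) (fun i j => K (vtx h 1 q i) (vtx h 2 q j))
        (fun i j => K (vtx h 0 q i) (vtx h 2 q j)) (fun i j x => (δ _ _ _).2)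
        (fun i j x => (δ _ _ _).2) (fun i j x => (δ _ _ _).2) _ h6 Ψ hΨ0 hΨ1
      have h7 : ∑ y : Arr m L, nu v q y * Ψ y = (∑ S, Ψ S) / Fintype.card (Arr m L) := by
        unfold nu
        simp only [if_neg hv]
        rw [Finset.sum_div]
        exact Finset.sum_congr rfl fun S _ => by ring
      have h8 : √(2 * (∑ i : Fin m, ∑ j : Fin m, ((K (vtx h 0 q i) (vtx h 1 q j) : ℝ) +
          K (vtx h 1 q i) (vtx h 2 q j) + K (vtx h 0 q i) (vtx h 2 q j))) / (m : ℝ) ^ 5 +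
          2 / (m : ℝ) ^ 2) ≤ eta m (∑ u, ∑ v, (K u v : ℝ)) := by
        unfold eta
        refine Real.sqrt_le_sqrt ?_
        have h9 := sum_K_le h K q
        have h10 : (0 : ℝ) < (m : ℝ) ^ 5 := by positivity
        gcongr
      rw [h7]
      linarith

lemma triA_nonneg (n K a b c : ℕ) : 0 ≤ triA n K a b c := by
  unfold triA; positivity

open Classical in
/-- The inequality of one circuit. -/
lemma circuitA (hm : 0 < m) (hL : 0 < L) (h : 12 * m ≤ n) (hn : 10 * L ≤ n ^ 300)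
    {K : Fin n → Fin n → ℕ} (M : ℕ) (hM : ∀ u v, K u v ≤ M)
    (δ : ∀ u v : Fin n, ℤ → Fin (K u v)) (H : ι → Inst n → ℝ) (κ : ι → ℝ)
    (hκ : ∀ r, (∃ Q : Finset (Fin n × Fin n), Sees (flg n) δ Q (H r) ∧
      tri n (side 0 1 Q) (side 1 2 Q) (side 0 2 Q) ≤ κ r) ∨
      ∃ a b c : ℕ, IsTree (flg n) δ a b c (H r) ∧ triA n M a b c ≤ κ r) :
    1 ≤ ∑ v, ∑ S : Fin 4 → Arr m L, (∏ q, nu v q (S q)) * bad H v S +
      32 * eta m (∑ u, ∑ v, (K u v : ℝ)) + 3 / 32 + 2 ^ 55 * (∑ r, κ r) / (m : ℝ) ^ 3 := by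
  have hmr : (0 : ℝ) < m := by exact_mod_cast hm
  have hm3 : (0 : ℝ) < (m : ℝ) ^ 3 := by positivity
  have hn0 : 0 < n := by omega
  have hKpos : 1 ≤ M := by
    have u : Fin n := ⟨0, hn0⟩
    have h1 := (δ u u 0).2
    have h2 := hM u u
    omega
  -- the labels
  set la : Fin 4 → Fin m → Fin m → Fin L → ℕ := fun q i j x =>
    (δ (vtx h 0 q i) (vtx h 1 q j) ((x : ℕ) : ℤ) : ℕ) with hla
  set lb : Fin 4 → Fin m → Fin m → Fin L → ℕ := fun q i j x =>
    (δ (vtx h 1 q i) (vtx h 2 q j) ((x : ℕ) : ℤ) : ℕ) with hlb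
  set lc : Fin 4 → Fin m → Fin m → Fin (2 * L) → ℕ := fun q i j x =>
    (δ (vtx h 0 q i) (vtx h 2 q j) (-((x : ℕ) : ℤ)) : ℕ) with hlc
  have hla1 : ∀ q i j x, la q i j x < M := fun q i j x => lt_of_lt_of_le (δ _ _ _).2 (hM _ _)
  have hlb1 : ∀ q i j x, lb q i j x < M := fun q i j x => lt_of_lt_of_le (δ _ _ _).2 (hM _ _)
  have hlc1 : ∀ q i j x, lc q i j x < M := fun q i j x => lt_of_lt_of_le (δ _ _ _).2 (hM _ _)
  -- the voters
  obtain ⟨st, hst⟩ : ∃ st : ι → Prop, st = fun r =>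
      ∃ Q : Finset (Fin n × Fin n), Sees (flg n) δ Q (H r) ∧
        tri n (side 0 1 Q) (side 1 2 Q) (side 0 2 Q) ≤ κ r := ⟨_, rfl⟩
  have hQ : ∀ r, ∃ Q : Finset (Fin n × Fin n), st r → (Sees (flg n) δ Q (H r) ∧
        tri n (side 0 1 Q) (side 1 2 Q) (side 0 2 Q) ≤ κ r) := by
    intro r
    by_cases hr : st r
    · have hr' := hr
      rw [hst] at hr'
      obtain ⟨Q, h1⟩ := hr'
      exact ⟨Q, fun _ => h1⟩
    · exact ⟨∅, fun hc => absurd hc hr⟩
  choose Q hQ using hQ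
  have hT : ∀ r, ∃ (a b c d : ℕ) (t : Wts n → Tree n d), ¬ st r →
      ((∀ w w' : Wts n,
      (∀ u v : Fin n, (u : ℕ) % 3 < (v : ℕ) % 3 → δ u v (w u v) = δ u v (w' u v)) →
      (∀ u v : Fin n, (u : ℕ) % 3 = (v : ℕ) % 3 → w u v = w' u v) → t w = t w') ∧
      (∀ w : Wts n, (⟨flg n, w⟩ : Inst n).Valid → (H r) ⟨flg n, w⟩ = (t w).eval w ∧
      probes 0 1 (t w) w ≤ a ∧ probes 1 2 (t w) w ≤ b ∧ probes 0 2 (t w) w ≤ c) ∧
      triA n M a b c ≤ κ r) := by
    intro r
    by_cases hr : st r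
    · exact ⟨0, 0, 0, 0, fun _ => .leaf 0, fun hc => absurd hr hc⟩
    · have hr' := hr
      rw [hst] at hr'
      rcases hκ r with h1 | ⟨a, b, c, ⟨d, t, h2, h3⟩, h4⟩
      · exact absurd h1 hr'
      · exact ⟨a, b, c, d, t, fun _ => ⟨h2, h3, h4⟩⟩
  choose ta tb tc td t ht using hT
  have hρ0 : ∀ q (D : Data m L), 0 ≤ mass (la q) (lb q) (lc q) D := fun q D => mass_nonneg _ _ _ D
  have hprod : ∀ D : Fin 4 → Data m L, 0 ≤ ∏ q, mass (la q) (lb q) (lc q) (D q) :=
    fun D => Finset.prod_nonneg fun q _ => hρ0 q _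
  have htot : ∑ D : Fin 4 → Data m L, ∏ q, mass (la q) (lb q) (lc q) (D q) = 1 := by
    rw [sum_prod4 (fun q D => mass (la q) (lb q) (lc q) D)]
    exact Finset.prod_eq_one fun q _ => sum_mass hm hL _ _ _
  -- integrate the pointwise inequality
  have h1 : (1 : ℝ) ≤ ∑ D : Fin 4 → Data m L, (∏ q, mass (la q) (lb q) (lc q) (D q)) *
      (∑ v, bad H v (cube v D) +
      ∑ v : Fin 3 → Bool, (if sgn v ≠ 1 ∧ ¬ AllGood v la lb lc (2 ^ 13) M
        (fun q => (D q).2.1) (cube v D) then (1 : ℝ) else 0) +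
      ∑ r, (if st r ∧ Touch h (Q r) (fun q => (D q).2.1) then (1 : ℝ) else 0) +
      ∑ r, ∑ v : Fin 3 → Bool, (if ¬ st r ∧ sgn v ≠ 1 ∧ AllGood v la lb lc (2 ^ 13) M
        (fun q => (D q).2.1) (cube v D) ∧
        Touch h (pth (t r) (cube v D)) (fun q => (D q).2.1) then (1 : ℝ) else 0)) := by
    refine htot.symm.le.trans (Finset.sum_le_sum fun D _ => ?_)
    by_cases h0 : ∏ q, mass (la q) (lb q) (lc q) (D q) = 0
    · rw [h0, zero_mul]
    · have h2 : ∀ q, mass (la q) (lb q) (lc q) (D q) ≠ 0 := fun q hq =>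
        h0 (Finset.prod_eq_zero (Finset.mem_univ q) hq)
      have h3 := pointA h hn δ st Q H (fun r hr => (hQ r hr).1) td t
        (fun r hr => (ht r hr).1) (fun r hr w hw => ((ht r hr).2.1 w hw).1)
        (fun v => AllGood v la lb lc (2 ^ 13) M (fun q => (D q).2.1) (cube v D)) D h2
      calc ∏ q, mass (la q) (lb q) (lc q) (D q)
          = (∏ q, mass (la q) (lb q) (lc q) (D q)) * 1 := (mul_one _).symm
        _ ≤ _ := mul_le_mul_of_nonneg_left h3 (hprod D)
  -- split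
  have h2 : ∑ D : Fin 4 → Data m L, (∏ q, mass (la q) (lb q) (lc q) (D q)) *
      (∑ v, bad H v (cube v D) +
      ∑ v : Fin 3 → Bool, (if sgn v ≠ 1 ∧ ¬ AllGood v la lb lc (2 ^ 13) M
        (fun q => (D q).2.1) (cube v D) then (1 : ℝ) else 0) +
      ∑ r, (if st r ∧ Touch h (Q r) (fun q => (D q).2.1) then (1 : ℝ) else 0) +
      ∑ r, ∑ v : Fin 3 → Bool, (if ¬ st r ∧ sgn v ≠ 1 ∧ AllGood v la lb lc (2 ^ 13) M
        (fun q => (D q).2.1) (cube v D) ∧
        Touch h (pth (t r) (cube v D)) (fun q => (D q).2.1) then (1 : ℝ) else 0)) =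
      ∑ v, (∑ D : Fin 4 → Data m L, (∏ q, mass (la q) (lb q) (lc q) (D q)) *
        bad H v (cube v D)) +
      ∑ v : Fin 3 → Bool, (∑ D : Fin 4 → Data m L, (∏ q, mass (la q) (lb q) (lc q) (D q)) *
        (if sgn v ≠ 1 ∧ ¬ AllGood v la lb lc (2 ^ 13) M
        (fun q => (D q).2.1) (cube v D) then (1 : ℝ) else 0)) +
      ∑ r, (∑ D : Fin 4 → Data m L, (∏ q, mass (la q) (lb q) (lc q) (D q)) *
        (if st r ∧ Touch h (Q r) (fun q => (D q).2.1) then (1 : ℝ) else 0)) +
      ∑ r, ∑ v : Fin 3 → Bool, (∑ D : Fin 4 → Data m L,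
        (∏ q, mass (la q) (lb q) (lc q) (D q)) *
        (if ¬ st r ∧ sgn v ≠ 1 ∧ AllGood v la lb lc (2 ^ 13) M
        (fun q => (D q).2.1) (cube v D) ∧
        Touch h (pth (t r) (cube v D)) (fun q => (D q).2.1) then (1 : ℝ) else 0)) := by
    simp only [mul_add, Finset.mul_sum, Finset.sum_add_distrib]
    have e1 : ∀ (κ : Type) [Fintype κ] (f : (Fin 4 → Data m L) → κ → ℝ),
        ∑ D, ∑ r, f D r = ∑ r, ∑ D, f D r := fun κ _ f => Finset.sum_comm
    rw [e1 (Fin 3 → Bool), e1 (Fin 3 → Bool), e1 ι, e1 ι]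
    congr 1
    refine Finset.sum_congr rfl fun r _ => ?_
    rw [e1 (Fin 3 → Bool)]
  -- the corners
  have h3 : ∀ v, ∑ D : Fin 4 → Data m L, (∏ q, mass (la q) (lb q) (lc q) (D q)) *
      bad H v (cube v D) ≤ ∑ S : Fin 4 → Arr m L, (∏ q, nu v q (S q)) * bad H v S +
        4 * eta m (∑ u, ∑ v, (K u v : ℝ)) := fun v => corner_le hm hL h δ H v
  -- the triangles that are not good
  have h3' : ∀ v, ∑ D : Fin 4 → Data m L, (∏ q, mass (la q) (lb q) (lc q) (D q)) *
        (if sgn v ≠ 1 ∧ ¬ AllGood v la lb lc (2 ^ 13) M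
        (fun q => (D q).2.1) (cube v D) then (1 : ℝ) else 0) ≤ 96 / 2 ^ 13 := by
    intro v
    by_cases hv : sgn v = 1
    · have h4 : ∀ D : Fin 4 → Data m L, (∏ q, mass (la q) (lb q) (lc q) (D q)) *
        (if sgn v ≠ 1 ∧ ¬ AllGood v la lb lc (2 ^ 13) M
        (fun q => (D q).2.1) (cube v D) then (1 : ℝ) else 0) = 0 := by
        intro D
        rw [if_neg (fun hc => hc.1 hv), mul_zero]
      rw [Finset.sum_eq_zero fun D _ => h4 D]
      positivity
    · refine le_trans (le_of_eq ?_) (not_good hm hL la lb lc M hKpos hla1 hlb1 hlc1 hv (2 ^ 13)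
        (by positivity))
      refine Finset.sum_congr rfl fun D _ => ?_
      congr 1
      by_cases hA : AllGood v la lb lc (2 ^ 13) M (fun q => (D q).2.1) (cube v D)
      · rw [if_pos hA, if_neg (fun hc => hc.2 hA)]
      · rw [if_neg hA, if_pos ⟨hv, hA⟩]
  -- the touched triangles
  have h4 : ∀ r, ∑ D : Fin 4 → Data m L, (∏ q, mass (la q) (lb q) (lc q) (D q)) *
      (if st r ∧ Touch h (Q r) (fun q => (D q).2.1) then (1 : ℝ) else 0) ≤
      if st r then 64 * κ r / (m : ℝ) ^ 3 else 0 := by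
    intro r
    by_cases hr : st r
    swap
    · rw [if_neg hr]
      refine (Finset.sum_eq_zero fun D _ => ?_).le
      rw [if_neg (fun hc => hr hc.1), mul_zero]
    rw [if_pos hr]
    simp only [hr, true_and]
    rw [marginal4 (fun a b c g => marginal hL a b c g) la lb lc
      (fun T => if Touch h (Q r) T then (1 : ℝ) else 0)]
    rw [Finset.sum_boole]
    have h5 := touch hm (by omega : m ≤ n) (fun q i j => Has (Q r) (vtx h 0 q i) (vtx h 1 q j))
      (fun q i j => Has (Q r) (vtx h 1 q i) (vtx h 2 q j))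
      (fun q i j => Has (Q r) (vtx h 0 q i) (vtx h 2 q j))
      (side 0 1 (Q r)) (side 1 2 (Q r)) (side 0 2 (Q r))
      (fun q => side_le h (Q r) 0 1 q) (fun q => side_le h (Q r) 1 2 q)
      (fun q => side_le h (Q r) 0 2 q)
    have h6 : (64 : ℝ) * tri n (side 0 1 (Q r)) (side 1 2 (Q r)) (side 0 2 (Q r)) / (m : ℝ) ^ 3 ≤
        64 * κ r / (m : ℝ) ^ 3 := by
      have := (hQ r hr).2
      gcongr
    refine le_trans (le_of_eq ?_) (h5.trans h6)
    have h7 : (Finset.univ.filter fun T => Touch h (Q r) T) =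
        Finset.univ.filter fun T : Fin 4 → Fin m × Fin m × Fin m =>
          (∃ q, Has (Q r) (vtx h 0 q (T q).1) (vtx h 1 q (T q).2.1)) ∧
          (∃ q, Has (Q r) (vtx h 1 q (T q).2.1) (vtx h 2 q (T q).2.2)) ∧
          (∃ q, Has (Q r) (vtx h 0 q (T q).1) (vtx h 2 q (T q).2.2)) := by
      ext T
      simp only [Finset.mem_filter, Finset.mem_univ, true_and]
      exact Iff.rfl
    rw [h7]
  -- the trees
  have h5 : ∀ r v, ∑ D : Fin 4 → Data m L,
        (∏ q, mass (la q) (lb q) (lc q) (D q)) *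
        (if ¬ st r ∧ sgn v ≠ 1 ∧ AllGood v la lb lc (2 ^ 13) M
        (fun q => (D q).2.1) (cube v D) ∧
        Touch h (pth (t r) (cube v D)) (fun q => (D q).2.1) then (1 : ℝ) else 0) ≤
      if st r then 0 else 2 ^ 13 * (2 ^ 13) ^ 3 * κ r / (m : ℝ) ^ 3 := by
    intro r v
    by_cases hr : st r
    · rw [if_pos hr]
      refine (Finset.sum_eq_zero fun D _ => ?_).le
      rw [if_neg (fun hc => hc.1 hr), mul_zero]
    rw [if_neg hr]
    have hval : ∀ S : Fin 4 → Arr m L, (⟨flg n, (inst n S).wt⟩ : Inst n).Valid :=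
      fun S => inst_valid hn S
    have h6 := tree_bound hm hL h la lb lc M hKpos (t r) (ta r) (tb r) (tc r)
      (fun S => (side_path (by norm_num) (by norm_num) _ _).trans
        ((ht r hr).2.1 _ (hval S)).2.1)
      (fun S => (side_path (by norm_num) (by norm_num) _ _).trans
        ((ht r hr).2.1 _ (hval S)).2.2.1)
      (fun S => (side_path (by norm_num) (by norm_num) _ _).trans
        ((ht r hr).2.1 _ (hval S)).2.2.2) v (2 ^ 13) (by norm_num)
    have h7 : (2 : ℝ) ^ 13 * (2 ^ 13) ^ 3 * triA n M (ta r) (tb r) (tc r) / (m : ℝ) ^ 3 ≤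
        2 ^ 13 * (2 ^ 13) ^ 3 * κ r / (m : ℝ) ^ 3 := by
      have := (ht r hr).2.2
      gcongr
    refine le_trans (Finset.sum_le_sum fun D _ => ?_) (h6.trans h7)
    refine mul_le_mul_of_nonneg_left ?_ (hprod D)
    by_cases hc : AllGood v la lb lc (2 ^ 13) M (fun q => (D q).2.1) (cube v D) ∧
        Touch h (pth (t r) (cube v D)) (fun q => (D q).2.1)
    · rw [if_pos hc]
      split_ifs <;> norm_num
    · rw [if_neg hc, if_neg (fun hd => hc hd.2.2)]
  have hκ0 : ∀ r, 0 ≤ κ r := by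
    intro r
    rcases hκ r with ⟨Q, -, h6⟩ | ⟨a, b, c, -, h6⟩
    · exact (tri_nonneg _ _ _ _).trans h6
    · exact (triA_nonneg _ _ _ _ _).trans h6
  calc (1 : ℝ) ≤ _ := h1
    _ = _ := h2
    _ ≤ ∑ v, (∑ S : Fin 4 → Arr m L, (∏ q, nu v q (S q)) * bad H v S +
          4 * eta m (∑ u, ∑ v, (K u v : ℝ))) + ∑ _v : Fin 3 → Bool, (96 / 2 ^ 13 : ℝ) +
        ∑ r, (if st r then 64 * κ r / (m : ℝ) ^ 3 else 0) +
        ∑ r, ∑ _v : Fin 3 → Bool,
          (if st r then 0 else 2 ^ 13 * (2 ^ 13) ^ 3 * κ r / (m : ℝ) ^ 3) :=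
        add_le_add (add_le_add (add_le_add (Finset.sum_le_sum fun v _ => h3 v)
          (Finset.sum_le_sum fun v _ => h3' v)) (Finset.sum_le_sum fun r _ => h4 r))
          (Finset.sum_le_sum fun r _ => Finset.sum_le_sum fun v _ => h5 r v)
    _ ≤ _ := by
        have c8 : ∀ x : ℝ, ∑ _v : Fin 3 → Bool, x = 8 * x := by
          intro x
          rw [Finset.sum_const, Finset.card_univ]
          simp only [Fintype.card_pi, Fintype.card_bool, Finset.prod_const, Finset.card_univ,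
            Fintype.card_fin, nsmul_eq_mul]
          push_cast
          ring
        have h6 : ∑ r, (if st r then 64 * κ r / (m : ℝ) ^ 3 else 0) +
            ∑ r, 8 * (if st r then 0 else 2 ^ 13 * (2 ^ 13) ^ 3 * κ r / (m : ℝ) ^ 3) ≤
            2 ^ 55 * (∑ r, κ r) / (m : ℝ) ^ 3 := by
          rw [← Finset.sum_add_distrib, Finset.mul_sum, Finset.sum_div]
          refine Finset.sum_le_sum fun r _ => ?_
          have h7 : 0 ≤ κ r / (m : ℝ) ^ 3 := div_nonneg (hκ0 r) hm3.le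
          have e2 : (64 : ℝ) * κ r / (m : ℝ) ^ 3 = 64 * (κ r / (m : ℝ) ^ 3) := by ring
          have e3 : (2 : ℝ) ^ 13 * (2 ^ 13) ^ 3 * κ r / (m : ℝ) ^ 3 =
            2 ^ 52 * (κ r / (m : ℝ) ^ 3) := by ring
          have e4 : (2 : ℝ) ^ 55 * κ r / (m : ℝ) ^ 3 = 2 ^ 55 * (κ r / (m : ℝ) ^ 3) := by ring
          rw [e2, e3, e4]
          split_ifs
          · nlinarith
          · nlinarith
        simp only [c8]
        rw [Finset.sum_add_distrib, c8]
        have h9 : (8 : ℝ) * (96 / 2 ^ 13) = 3 / 32 := by norm_num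
        linarith

/-! ### The theorem -/

theorem lowerA (n : ℕ) (Ω ι : Type) [Fintype Ω] [Nonempty Ω] [Fintype ι]
    (K : Ω → Fin n → Fin n → ℕ) (M : Ω → ℕ) (hM : ∀ ω u v, K ω u v ≤ M ω)
    (δ : ∀ ω, Flags n → ∀ u v : Fin n, ℤ → Fin (K ω u v))
    (H : Ω → ι → Inst n → ℝ) (κ : Ω → ι → ℝ) (hκ : ∀ ω r, PriceA (δ ω) (M ω) (H ω r) (κ ω r))
    (hdec : ∀ I : Inst n, I.Valid → Tripartite I → Decides H I) :
    (n : ℝ) ^ 3 ≤ 2 ^ 70 *
      ((∑ ω, ((∑ u, ∑ v, (K ω u v : ℝ)) / (n : ℝ) ^ 2 + ∑ r, κ ω r)) / Fintype.card Ω) := by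
  have hN : (0 : ℝ) < Fintype.card Ω := by exact_mod_cast Fintype.card_pos
  have hκ0 : ∀ ω r, 0 ≤ κ ω r := by
    intro ω r
    rcases hκ ω r (flg n) with ⟨Q, -, h6⟩ | ⟨a, b, c, -, h6⟩
    · exact (tri_nonneg _ _ _ _).trans h6
    · exact (triA_nonneg _ _ _ _ _).trans h6
  have hκs : ∀ ω, 0 ≤ ∑ r, κ ω r := fun ω => Finset.sum_nonneg fun r _ => hκ0 ω r
  have hK0 : ∀ ω, 0 ≤ ∑ u, ∑ v, (K ω u v : ℝ) := fun ω =>
    Finset.sum_nonneg fun u _ => Finset.sum_nonneg fun v _ => by positivity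
  rcases Nat.eq_zero_or_pos n with h0 | hpos
  · subst h0
    have : 0 ≤ ((∑ ω, ((∑ u, ∑ v, (K ω u v : ℝ)) / ((0 : ℕ) : ℝ) ^ 2 + ∑ r, κ ω r)) /
        Fintype.card Ω) := by
      refine div_nonneg (Finset.sum_nonneg fun ω _ => ?_) hN.le
      have := hκs ω
      have := hK0 ω
      positivity
    norm_num at this ⊢
    linarith
  have hn0 : (0 : ℝ) < n := by exact_mod_cast hpos
  rcases Nat.lt_or_ge n 1600 with hsmall | hbig
  · -- small `n`
    have h1 : ∀ ω, 1 ≤ (∑ u, ∑ v, (K ω u v : ℝ)) / (n : ℝ) ^ 2 + ∑ r, κ ω r := by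
      intro ω
      have h2 : (n : ℝ) ^ 2 ≤ ∑ u, ∑ v, (K ω u v : ℝ) := by
        have h3 : ∀ u v, (1 : ℝ) ≤ K ω u v := by
          intro u v
          have := (δ ω (flg n) u v 0).2
          exact_mod_cast (by omega : 1 ≤ K ω u v)
        calc (n : ℝ) ^ 2 = ∑ _u : Fin n, ∑ _v : Fin n, (1 : ℝ) := by simp [sq]
          _ ≤ _ := Finset.sum_le_sum fun u _ => Finset.sum_le_sum fun v _ => h3 u v
      have h4 : 1 ≤ (∑ u, ∑ v, (K ω u v : ℝ)) / (n : ℝ) ^ 2 := by
        rw [le_div_iff₀ (by positivity), one_mul]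
        exact h2
      have := hκs ω
      linarith
    have h5 : 1 ≤ (∑ ω, ((∑ u, ∑ v, (K ω u v : ℝ)) / (n : ℝ) ^ 2 + ∑ r, κ ω r)) /
        Fintype.card Ω := by
      rw [le_div_iff₀ hN, one_mul]
      calc (Fintype.card Ω : ℝ) = ∑ _ω : Ω, (1 : ℝ) := by simp
        _ ≤ _ := Finset.sum_le_sum fun ω _ => h1 ω
    have h6 : (n : ℝ) ≤ 1600 := by exact_mod_cast hsmall.le
    have h7 : (n : ℝ) ^ 3 ≤ 1600 ^ 3 := pow_le_pow_left₀ hn0.le h6 3
    nlinarith
  · -- big `n`
    obtain ⟨m, hm⟩ : ∃ m, m = n / 12 := ⟨_, rfl⟩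
    have h12 : 12 * m ≤ n := by omega
    have hm133 : 133 ≤ m := by omega
    have hn12 : n ≤ 12 * m + 11 := by omega
    have hL : 0 < n ^ 4 := by positivity
    have hLn : 10 * n ^ 4 ≤ n ^ 300 := by
      calc 10 * n ^ 4 ≤ n * n ^ 4 := Nat.mul_le_mul_right _ (by omega)
        _ = n ^ 5 := by ring
        _ ≤ n ^ 300 := Nat.pow_le_pow_right hpos (by norm_num)
    have hm0 : 0 < m := by omega
    have hcirc := fun ω => circuitA hm0 hL h12 hLn (M ω) (hM ω) (δ ω (flg n)) (H ω)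
      (κ ω) (fun r => hκ ω r (flg n))
    have hmr : (133 : ℝ) ≤ m := by exact_mod_cast hm133
    have hm3 : (0 : ℝ) < (m : ℝ) ^ 3 := by positivity
    obtain ⟨A, hA⟩ : ∃ A : ℝ, A = ∑ ω, ∑ u, ∑ v, (K ω u v : ℝ) := ⟨_, rfl⟩
    obtain ⟨B, hB⟩ : ∃ B : ℝ, B = ∑ ω, ∑ r, κ ω r := ⟨_, rfl⟩
    have hA0 : 0 ≤ A := by rw [hA]; exact Finset.sum_nonneg fun ω _ => hK0 ω
    have hB0 : 0 ≤ B := by rw [hB]; exact Finset.sum_nonneg fun ω _ => hκs ω
    have h1 : (Fintype.card Ω : ℝ) ≤ ∑ ω, (∑ v, ∑ S : Fin 4 → Arr m (n ^ 4),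
        (∏ q, nu v q (S q)) * bad (H ω) v S +
        (47 / 160 + 1280 * (2 * (∑ u, ∑ v, (K ω u v : ℝ)) / (m : ℝ) ^ 5 + 2 / (m : ℝ) ^ 2)) +
        2 ^ 55 * (∑ r, κ ω r) / (m : ℝ) ^ 3) := by
      calc (Fintype.card Ω : ℝ) = ∑ _ω : Ω, (1 : ℝ) := by simp
        _ ≤ _ := Finset.sum_le_sum fun ω _ => ?_
      have h2 := hcirc ω
      have h3 : 32 * eta m (∑ u, ∑ v, (K ω u v : ℝ)) ≤ 1 / 5 + 1280 *
          (2 * (∑ u, ∑ v, (K ω u v : ℝ)) / (m : ℝ) ^ 5 + 2 / (m : ℝ) ^ 2) := by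
        unfold eta
        refine am_gm _ ?_
        have := hK0 ω
        positivity
      linarith
    have h4 : ∑ ω, (∑ v, ∑ S : Fin 4 → Arr m (n ^ 4),
        (∏ q, nu v q (S q)) * bad (H ω) v S +
        (47 / 160 + 1280 * (2 * (∑ u, ∑ v, (K ω u v : ℝ)) / (m : ℝ) ^ 5 + 2 / (m : ℝ) ^ 2)) +
        2 ^ 55 * (∑ r, κ ω r) / (m : ℝ) ^ 3) =
        (∑ v, ∑ ω, ∑ S : Fin 4 → Arr m (n ^ 4), (∏ q, nu v q (S q)) * bad (H ω) v S) +
        Fintype.card Ω * (47 / 160 + 2560 / (m : ℝ) ^ 2) + 2560 * A / (m : ℝ) ^ 5 +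
          2 ^ 55 * B / (m : ℝ) ^ 3 := by
      rw [Finset.sum_add_distrib, Finset.sum_add_distrib, Finset.sum_comm, hA, hB]
      have h5 : ∑ ω, (47 / 160 + 1280 * (2 * (∑ u, ∑ v, (K ω u v : ℝ)) / (m : ℝ) ^ 5 +
          2 / (m : ℝ) ^ 2)) = Fintype.card Ω * (47 / 160 + 2560 / (m : ℝ) ^ 2) +
          2560 * (∑ ω, ∑ u, ∑ v, (K ω u v : ℝ)) / (m : ℝ) ^ 5 := by
        rw [Finset.mul_sum, Finset.sum_div]
        have h6 : (Fintype.card Ω : ℝ) * (47 / 160 + 2560 / (m : ℝ) ^ 2) =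
            ∑ _ω : Ω, (47 / 160 + 2560 / (m : ℝ) ^ 2) := by
          rw [Finset.sum_const, Finset.card_univ, nsmul_eq_mul]
        rw [h6, ← Finset.sum_add_distrib]
        exact Finset.sum_congr rfl fun ω _ => by ring
      have h7 : ∑ ω, 2 ^ 55 * (∑ r, κ ω r) / (m : ℝ) ^ 3 =
          2 ^ 55 * (∑ ω, ∑ r, κ ω r) / (m : ℝ) ^ 3 := by
        rw [Finset.mul_sum, Finset.sum_div]
      rw [h5, h7]
      ring
    have h8 : ∑ v : Fin 3 → Bool, ∑ ω, ∑ S : Fin 4 → Arr m (n ^ 4),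
        (∏ q, nu v q (S q)) * bad (H ω) v S ≤
        8 * (Fintype.card Ω * (1 / 20 + 2 * (m : ℝ) ^ 3 / (n ^ 4 : ℕ))) := by
      calc _ ≤ ∑ _v : Fin 3 → Bool, (Fintype.card Ω : ℝ) *
            (1 / 20 + 2 * (m : ℝ) ^ 3 / (n ^ 4 : ℕ)) :=
            Finset.sum_le_sum fun v _ => average hm0 hL h12 hLn H hdec v
        _ = _ := by
            rw [Finset.sum_const, Finset.card_univ]
            simp only [Fintype.card_pi, Fintype.card_bool, Finset.prod_const, Finset.card_univ,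
              Fintype.card_fin, nsmul_eq_mul]
            push_cast
            ring
    have hnm : (12 : ℝ) * m ≤ n := by exact_mod_cast h12
    have hnm2 : (n : ℝ) ≤ 12.1 * m := by
      have : (n : ℝ) ≤ 12 * m + 11 := by exact_mod_cast hn12
      linarith
    have h9 : 2 * (m : ℝ) ^ 3 / (n ^ 4 : ℕ) ≤ 1 / 10000 := by
      push_cast
      rw [div_le_iff₀ (by positivity)]
      have h10 : (m : ℝ) ^ 3 ≤ (n : ℝ) ^ 3 / 1728 := by
        have := pow_le_pow_left₀ (by positivity) hnm 3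
        linarith [this, (by ring : (12 * (m : ℝ)) ^ 3 = 1728 * (m : ℝ) ^ 3)]
      have h11 : (1600 : ℝ) ≤ n := by exact_mod_cast hbig
      have h12 : 1600 * (n : ℝ) ^ 3 ≤ (n : ℝ) ^ 4 := by
        have : (n : ℝ) ^ 4 = n * (n : ℝ) ^ 3 := by ring
        rw [this]
        exact mul_le_mul_of_nonneg_right h11 (by positivity)
      linarith [pow_pos hn0 3]
    have h10 : 2560 / (m : ℝ) ^ 2 ≤ 145 / 1000 := by
      rw [div_le_iff₀ (by positivity)]
      nlinarith
    have h11 : (1 / 8 : ℝ) * Fintype.card Ω ≤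
        2560 * A / (m : ℝ) ^ 5 + 2 ^ 55 * B / (m : ℝ) ^ 3 := by
      rw [h4] at h1
      have h12 : (Fintype.card Ω : ℝ) * (47 / 160 + 2560 / (m : ℝ) ^ 2) ≤
          Fintype.card Ω * (47 / 160 + 145 / 1000) :=
        mul_le_mul_of_nonneg_left (by linarith) hN.le
      have h13 : (Fintype.card Ω : ℝ) * (1 / 20 + 2 * (m : ℝ) ^ 3 / (n ^ 4 : ℕ)) ≤
          Fintype.card Ω * (1 / 20 + 1 / 10000) :=
        mul_le_mul_of_nonneg_left (by linarith) hN.le
      linarith
    -- multiply by `m ^ 3`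
    have h12' : (m : ℝ) ^ 3 * Fintype.card Ω ≤ 20480 * A / (m : ℝ) ^ 2 + 2 ^ 58 * B := by
      have h13 := mul_le_mul_of_nonneg_left h11 hm3.le
      have h14 : (m : ℝ) ^ 3 * (2560 * A / (m : ℝ) ^ 5 + 2 ^ 55 * B / (m : ℝ) ^ 3) =
          2560 * A / (m : ℝ) ^ 2 + 2 ^ 55 * B := by
        field_simp
      rw [h14] at h13
      have h15 : 20480 * A / (m : ℝ) ^ 2 = 8 * (2560 * A / (m : ℝ) ^ 2) := by ring
      rw [h15]
      linarith
    have h13 : (n : ℝ) ^ 3 ≤ 1772 * (m : ℝ) ^ 3 := by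
      have := pow_le_pow_left₀ hn0.le hnm2 3
      have h14 : (12.1 * (m : ℝ)) ^ 3 = 1771.561 * (m : ℝ) ^ 3 := by ring
      rw [h14] at this
      linarith
    have h14 : A / (m : ℝ) ^ 2 ≤ 147 * (A / (n : ℝ) ^ 2) := by
      have h15 : (n : ℝ) ^ 2 ≤ 147 * (m : ℝ) ^ 2 := by
        have := pow_le_pow_left₀ hn0.le hnm2 2
        have h16 : (12.1 * (m : ℝ)) ^ 2 = 146.41 * (m : ℝ) ^ 2 := by ring
        rw [h16] at this
        nlinarith [sq_nonneg (m : ℝ)]
      rw [mul_div_assoc', div_le_div_iff₀ (by positivity) (by positivity)]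
      nlinarith
    have h15 : ∑ ω, ((∑ u, ∑ v, (K ω u v : ℝ)) / (n : ℝ) ^ 2 + ∑ r, κ ω r) =
        A / (n : ℝ) ^ 2 + B := by
      rw [Finset.sum_add_distrib, ← Finset.sum_div, hA, hB]
    rw [h15, mul_div_assoc', le_div_iff₀ hN]
    have h16 : 20480 * A / (m : ℝ) ^ 2 = 20480 * (A / (m : ℝ) ^ 2) := by ring
    rw [h16] at h12'
    have h17 : 0 ≤ A / (n : ℝ) ^ 2 := by positivity
    calc (n : ℝ) ^ 3 * Fintype.card Ω ≤ 1772 * (m : ℝ) ^ 3 * Fintype.card Ω :=
          mul_le_mul_of_nonneg_right h13 hN.le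
      _ = 1772 * ((m : ℝ) ^ 3 * Fintype.card Ω) := by ring
      _ ≤ 1772 * (20480 * (147 * (A / (n : ℝ) ^ 2)) + 2 ^ 58 * B) := by
          refine mul_le_mul_of_nonneg_left ?_ (by norm_num)
          linarith
      _ ≤ 2 ^ 70 * (A / (n : ℝ) ^ 2 + B) := by
          nlinarith

end Pool.Agent.Helper94.DG
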