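import Pool.Agent.Helper53.TC5.Model

/-!
# Digests: the voters

The classes of vertices are the residues modulo 3; the sides `01`, `12` and `02` are the three
weight matrices between the classes. `IsFree`, `Side`, `probes` and `tri` are defined in
`Helper53/TC5/Model.lean`, `Tree` in `Helper8/VT/Defs.lean`, `Decides` in `Helper8/UV/Defs.lean`,
the instances in `Helper22/ETModel.lean`.
-/

set_option autoImplicit false

open Finset

namespace Pool.Agent.Helper94.DG

open Pool.Agent.Helper22.ETModel Pool.Agent.Helper8.VT Pool.Agent.Helper53.TC5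

/-- The cell `u v` belongs to the set `Q` of cells. -/
def Has {n : ℕ} (Q : Finset (Fin n × Fin n)) (u v : Fin n) : Prop := (u, v) ∈ Q ∨ (v, u) ∈ Q

/-- The voter `H` is an arbitrary real function of the digests `δ u v (w u v)` of all the weights
between different classes (the residues modulo 3), of the exact weights in the cells of the set `Q`
and of all the weights inside the classes, for the flags `f`. -/
def Sees {n : ℕ} (f : Flags n) {K : Fin n → Fin n → ℕ} (δ : ∀ u v : Fin n, ℤ → Fin (K u v))
    (Q : Finset (Fin n × Fin n)) (H : Inst n → ℝ) : Prop :=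
  ∀ w w' : Wts n, (⟨f, w⟩ : Inst n).Valid → (⟨f, w'⟩ : Inst n).Valid →
    (∀ u v : Fin n, (u : ℕ) % 3 < (v : ℕ) % 3 → δ u v (w u v) = δ u v (w' u v)) →
    (∀ u v : Fin n, Has Q u v ∨ (u : ℕ) % 3 = (v : ℕ) % 3 → w u v = w' u v) →
    H ⟨f, w⟩ = H ⟨f, w'⟩

/-! ### One parameter -/

/-- The voter `H` is an arbitrary real function of the flags, of all the weights except those of one
of the three sides (the side may depend on the flags), and of the digests of all the weights. -/
def TwoSides {n : ℕ} {K : Fin n → Fin n → ℕ} (δ : Flags n → ∀ u v : Fin n, ℤ → Fin (K u v))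
    (H : Inst n → ℝ) : Prop :=
  ∀ f : Flags n, ∃ p q : ℕ, p < q ∧ q < 3 ∧
    Sees f (δ f) (univ.filter fun c : Fin n × Fin n => ¬ Side p q c.1 c.2) H

/-- The voter `H` is an arbitrary real function of the flags, of the exact weights in at most `t`
cells (which may depend on the flags), and of the digests of all the weights. -/
def Cells {n : ℕ} {K : Fin n → Fin n → ℕ} (δ : Flags n → ∀ u v : Fin n, ℤ → Fin (K u v)) (t : ℕ)
    (H : Inst n → ℝ) : Prop :=
  ∀ f : Flags n, ∃ Q : Finset (Fin n × Fin n), Q.card ≤ t ∧ Sees f (δ f) Q H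

/-- The voter `H` is computed by decision trees with at most `t` adaptive probes of exact weights;
the tree depends in an arbitrary way on the flags, on the digests of all the weights between
different classes and on the weights inside the classes. -/
def Probes {n : ℕ} {K : Fin n → Fin n → ℕ} (δ : Flags n → ∀ u v : Fin n, ℤ → Fin (K u v)) (t : ℕ)
    (H : Inst n → ℝ) : Prop :=
  ∀ f : Flags n, ∃ T : Wts n → Tree n t,
    (∀ w w' : Wts n,
      (∀ u v : Fin n, (u : ℕ) % 3 < (v : ℕ) % 3 → δ f u v (w u v) = δ f u v (w' u v)) →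
      (∀ u v : Fin n, (u : ℕ) % 3 = (v : ℕ) % 3 → w u v = w' u v) → T w = T w') ∧
    ∀ w : Wts n, (⟨f, w⟩ : Inst n).Valid → H ⟨f, w⟩ = (T w).eval w

/-! ### General prices -/

open Classical in
/-- The number of the cells of `Q` between the classes `p` and `q`, for `p < q`. -/
noncomputable def side {n : ℕ} (p q : ℕ) (Q : Finset (Fin n × Fin n)) : ℕ :=
  (univ.filter fun c : Fin n × Fin n =>
    (c.1 : ℕ) % 3 = p ∧ (c.2 : ℕ) % 3 = q ∧ Has Q c.1 c.2).card

/-- `κ` bounds the price of the voter `H`: for all flags it sees the digests `δ` and the exact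
weights in a set of cells with `a`, `b`, `c` cells in the sides `01`, `12`, `02` such that
`tri n a b c ≤ κ`. -/
def PriceG {n : ℕ} {K : Fin n → Fin n → ℕ} (δ : Flags n → ∀ u v : Fin n, ℤ → Fin (K u v))
    (H : Inst n → ℝ) (κ : ℝ) : Prop :=
  ∀ f : Flags n, ∃ Q : Finset (Fin n × Fin n), Sees f (δ f) Q H ∧
    tri n (side 0 1 Q) (side 1 2 Q) (side 0 2 Q) ≤ κ

/-- The voter `H` is computed, for the flags `f`, by a decision tree of any depth, which depends in
an arbitrary way on the digests `δ u v (w u v)` of all the weights between different classes and on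
all the weights inside the classes, with at most `a`, `b`, `c` adaptive probes of exact weights of
the sides `01`, `12`, `02` on every path. -/
def IsTree {n : ℕ} (f : Flags n) {K : Fin n → Fin n → ℕ} (δ : ∀ u v : Fin n, ℤ → Fin (K u v))
    (a b c : ℕ) (H : Inst n → ℝ) : Prop :=
  ∃ (d : ℕ) (t : Wts n → Tree n d),
    (∀ w w' : Wts n,
      (∀ u v : Fin n, (u : ℕ) % 3 < (v : ℕ) % 3 → δ u v (w u v) = δ u v (w' u v)) →
      (∀ u v : Fin n, (u : ℕ) % 3 = (v : ℕ) % 3 → w u v = w' u v) → t w = t w') ∧
    ∀ w : Wts n, (⟨f, w⟩ : Inst n).Valid → H ⟨f, w⟩ = (t w).eval w ∧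
      probes 0 1 (t w) w ≤ a ∧ probes 1 2 (t w) w ≤ b ∧ probes 0 2 (t w) w ≤ c

/-- The smaller one of the numbers `M * √(a b c)` and `(n + M) * min a b c`. -/
noncomputable def triA (n M a b c : ℕ) : ℝ :=
  min ((M : ℝ) * Real.sqrt (a * b * c)) (((n : ℝ) + M) * min (a : ℝ) (min (b : ℝ) (c : ℝ)))

/-- `κ` bounds the price of the voter `H`: for all flags it sees the digests `δ` and the exact
weights in a set of cells with `a`, `b`, `c` cells in the sides `01`, `12`, `02` and
`tri n a b c ≤ κ`, or it is computed by decision trees which know the digests, with `a`, `b`, `c`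
probes in the sides, and `triA n M a b c ≤ κ`. -/
def PriceA {n : ℕ} {K : Fin n → Fin n → ℕ} (δ : Flags n → ∀ u v : Fin n, ℤ → Fin (K u v)) (M : ℕ)
    (H : Inst n → ℝ) (κ : ℝ) : Prop :=
  ∀ f : Flags n, (∃ Q : Finset (Fin n × Fin n), Sees f (δ f) Q H ∧
    tri n (side 0 1 Q) (side 1 2 Q) (side 0 2 Q) ≤ κ) ∨
    ∃ a b c : ℕ, IsTree f (δ f) a b c H ∧ triA n M a b c ≤ κ

end Pool.Agent.Helper94.DG
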